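import Pool.Agent.W260.Theta.Defs

/-!
Statements of the parts (as Props) for the e-positivity of theta graphs.
-/

set_option autoImplicit false

namespace Pool.Agent.W260.Theta

open Finset

/-- Part G: the colouring sum of a graph made of three paths is `theta`. -/
def S_G : Prop :=
  ∀ (V ι R : Type) [Fintype V] [Fintype ι] [DecidableEq ι] [CommRing R] (x : ι → R)
    (G : SimpleGraph V) (u v : V) (p q r : G.Walk u v),
    u ≠ v → p.IsPath → q.IsPath → r.IsPath →
    (∀ y, y ∈ p.support → y ∈ q.support → y = u ∨ y = v) →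
    (∀ y, y ∈ p.support → y ∈ r.support → y = u ∨ y = v) →
    (∀ y, y ∈ q.support → y ∈ r.support → y = u ∨ y = v) →
    (∀ y, y ∈ p.support ∨ y ∈ q.support ∨ y ∈ r.support) →
    (∀ y z, G.Adj y z → s(y, z) ∈ p.edges ∨ s(y, z) ∈ q.edges ∨ s(y, z) ∈ r.edges) →
    ∀ S : Finset (V → ι), (∀ κ, κ ∈ S ↔ ∀ y z, G.Adj y z → κ y ≠ κ z) →
    ∑ κ ∈ S, ∏ y, x (κ y) = theta x (p.length - 1) (q.length - 1) (r.length - 1)
      ∧ Fintype.card V + 1 = p.length + q.length + r.length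

/-- Part P: expansion of the chromatic symmetric function of a path. -/
def S_P : Prop :=
  ∀ (N n : ℕ),
    PP (fun i : Fin N => (MvPolynomial.X i : MvPolynomial (Fin N) ℤ)) (n + 1) =
      MvPolynomial.esymm (Fin N) ℤ (n + 1) +
      ∑ h ∈ range (n + 1), (h : MvPolynomial (Fin N) ℤ) * MvPolynomial.esymm (Fin N) ℤ (h + 1) *
        PP (fun i : Fin N => (MvPolynomial.X i : MvPolynomial (Fin N) ℤ)) (n - h)

/-- Part T: theta graphs in terms of paths and cycles, and the recursion of cycles. -/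
def S_T : Prop :=
  ∀ (ι R : Type) [Fintype ι] [DecidableEq ι] [CommRing R] (x : ι → R),
    (∀ n : ℕ, ∑ t ∈ range (n + 1), CC x (n - t) * PP x t = (n : R) * PP x (n + 1)) ∧
    (∀ a b c n : ℕ, 1 ≤ a → 1 ≤ b → 1 ≤ c → n + 1 = a + b + c →
      theta x (a - 1) (b - 1) (c - 1) =
        (∑ j ∈ range a, ((∑ t ∈ range (j + 1), CC x (n - 1 - t) * PP x t) - (j : R) * PP x n)) +
        (∑ j ∈ range b, ((∑ t ∈ range (j + 1), CC x (n - 1 - t) * PP x t) - (j : R) * PP x n)) +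
        (∑ j ∈ range c, ((∑ t ∈ range (j + 1), CC x (n - 1 - t) * PP x t) - (j : R) * PP x n)) -
        (∑ j ∈ range n, ((∑ t ∈ range (j + 1), CC x (n - 1 - t) * PP x t) - (j : R) * PP x n)) -
        CC x (n - 1))

/-- Part E: expansion over compositions. -/
def S_E : Prop :=
  ∀ (R : Type) [CommRing R] (E P C : ℕ → R), P 0 = 1 →
    (∀ n, P (n + 1) = E (n + 1) + ∑ h ∈ range (n + 1), (h : R) * E (h + 1) * P (n - h)) →
    (∀ n, ∑ t ∈ range (n + 1), C (n - t) * P t = (n : R) * P (n + 1)) →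
    ∀ n m : ℕ, m ≤ n →
      ∑ j ∈ range m, ((∑ t ∈ range (j + 1), C (n - 1 - t) * P t) - (j : R) * P n) =
        ∑ I : Composition n, ((wt I.blocks * Phi I.blocks m : ℤ) : R) * (I.blocks.map E).prod

/-- Part I: the inequality. -/
def S_I : Prop :=
  ∀ (lam : Multiset ℕ) (a b c : ℕ), (∀ y ∈ lam, 1 ≤ y) → 1 ≤ a → 1 ≤ b → 1 ≤ c →
    lam.sum + 1 = a + b + c →
    0 ≤ ∑ L ∈ (Multiset.lists lam).toFinset, wt L * cc L a b c

end Pool.Agent.W260.Theta
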