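import Pool.Agent.W260.Theta.I2d
import Pool.Agent.W260.Theta.Stms

/-!
Second inequality: the induction; and the inequality `S_I`.
-/

set_option autoImplicit false

namespace Pool.Agent.W260.Theta

open Finset

lemma WW_of_count (J : Multiset ℕ) (H a b c : ℕ)
    (h : 0 ≤ ((H ::ₘ J).count H : ℚ) * WW (H ::ₘ J) a b c) : 0 ≤ WW (H ::ₘ J) a b c := by
  have h2 : (0:ℚ) < ((H ::ₘ J).count H : ℚ) := by exact_mod_cast count_cons_pos J H
  exact nonneg_of_mul_nonneg_right h h2

lemma count_mul_nonneg (J : Multiset ℕ) (H a b c : ℕ) (h : 0 ≤ WW (H ::ₘ J) a b c) :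
    0 ≤ ((H ::ₘ J).count H : ℚ) * WW (H ::ₘ J) a b c :=
  mul_nonneg (by positivity) h

theorem WW_nonneg_aux (n : ℕ) : ∀ (lam : Multiset ℕ) (a b c : ℕ), lam.sum = n → lam ≠ 0 →
    (∀ x ∈ lam, 2 ≤ x) → a + b + c = n + 1 → 1 ≤ a + b → 1 ≤ a + c → 1 ≤ b + c →
    0 ≤ WW lam a b c := by
  induction n using Nat.strong_induction_on with
  | _ n ih =>
  suffices H : ∀ (lam : Multiset ℕ) (a b c : ℕ), lam.sum = n → lam ≠ 0 → (∀ x ∈ lam, 2 ≤ x) →
      a + b + c = n + 1 → 1 ≤ b → b ≤ a → c ≤ b → 0 ≤ WW lam a b c by
    intro lam a b c h1 h2 h3 h4 h5 h6 h7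
    rcases le_total b a with hab | hab <;> rcases le_total c b with hbc | hbc <;>
      rcases le_total c a with hac | hac
    · exact H lam a b c h1 h2 h3 (by omega) (by omega) (by omega) (by omega)
    · exact H lam a b c h1 h2 h3 (by omega) (by omega) (by omega) (by omega)
    · rw [WW_comm23]
      exact H lam a c b h1 h2 h3 (by omega) (by omega) (by omega) (by omega)
    · rw [WW_comm23, WW_comm12]
      exact H lam c a b h1 h2 h3 (by omega) (by omega) (by omega) (by omega)
    · rw [WW_comm12]
      exact H lam b a c h1 h2 h3 (by omega) (by omega) (by omega) (by omega)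
    · rw [WW_comm12, WW_comm23]
      exact H lam b c a h1 h2 h3 (by omega) (by omega) (by omega) (by omega)
    · rw [WW_comm12, WW_comm23, WW_comm12]
      exact H lam c b a h1 h2 h3 (by omega) (by omega) (by omega) (by omega)
    · rw [WW_comm12, WW_comm23, WW_comm12]
      exact H lam c b a h1 h2 h3 (by omega) (by omega) (by omega) (by omega)
  intro lam a b c hsum hlam hpos habc hb1 hba hcb
  obtain ⟨M, hM, hmax⟩ := exists_max lam hlam
  have hM2 := hpos M hM
  obtain ⟨J, hJ⟩ := Multiset.exists_cons_of_mem hM
  have hJpos : ∀ x ∈ J, 2 ≤ x := fun x hx => hpos x (by rw [hJ]; exact Multiset.mem_cons_of_mem hx)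
  have hJsum : M + J.sum = n := by rw [← hsum, hJ, Multiset.sum_cons]
  by_cases hJ0 : J = 0
  · -- a single block
    subst hJ0
    have : lam = {M} := by rw [hJ]; rfl
    rw [this]
    simp only [Multiset.sum_zero, add_zero] at hJsum
    exact single_case M a b c hM2 (by omega) (by omega) (by omega) (by omega) (by omega)
      (by omega) (by omega)
  have hJsum2 : 2 ≤ J.sum := by
    obtain ⟨x, hx⟩ := Multiset.exists_mem_of_ne_zero hJ0
    exact le_trans (hJpos x hx) (Multiset.le_sum_of_mem hx)
  have hcard : 2 ≤ lam.card := by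
    rw [hJ, Multiset.card_cons]
    have := Multiset.card_pos.2 hJ0
    omega
  -- the recursion
  have hrec : (∀ f ∈ lam, f ≤ a) → (c = 0 → ∀ f ∈ lam, f < a) → 0 ≤ WW lam a b c := by
    intro h1 h2
    rw [WW_rec lam hcard a b c h1 ?_ ?_]
    · apply sum_nonneg
      intro f hf
      rw [Multiset.mem_toFinset] at hf
      have hs := sum_erase hf
      have hf2 := hpos f hf
      have hfa := h1 f hf
      refine ih (n - f) (by omega) (lam.erase f) (a - f) b c (by omega) ?_ ?_ (by omega)
        (by omega) ?_ (by omega)
      · rw [← Multiset.card_pos]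
        have := Multiset.card_erase_add_one hf
        omega
      · intro x hx
        exact hpos x (Multiset.mem_of_mem_erase hx)
      · rcases Nat.eq_zero_or_pos c with hc | hc
        · have := h2 hc f hf
          omega
        · omega
    · intro f hf
      rcases Nat.eq_zero_or_pos c with hc | hc
      · have := h2 hc f hf
        omega
      · have := h1 f hf
        omega
    · intro f hf
      have := h1 f hf
      omega
  rcases Nat.eq_zero_or_pos c with hc | hc
  · -- c = 0
    subst hc
    rcases lt_or_ge M a with hMa | hMa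
    · exact hrec (fun f hf => by have := hmax f hf; omega) (fun _ f hf => by
        have := hmax f hf; omega)
    · rw [hJ]
      exact WW_of_count J M a b 0 (zero_case J hJpos M a b hM2 hMa (by omega) (by omega))
  · rcases le_or_gt M a with hMa | hMa
    · exact hrec (fun f hf => by have := hmax f hf; omega) (fun h => by omega)
    · -- huge block
      rw [hJ]
      apply WW_of_count
      rcases Nat.lt_or_ge J.sum a with hak | hak
      · -- big step in direction a
        obtain ⟨H, rfl⟩ : ∃ H, M = H + 1 := ⟨M - 1, by omega⟩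
        obtain ⟨v, rfl⟩ : ∃ v, a = v + 1 := ⟨a - 1, by omega⟩
        have h1 := big_step J hJpos H b v c (by omega) (by omega) (by omega) (by omega)
          (by omega) (by omega)
        rw [WW_comm12]
        refine le_trans ?_ h1
        apply count_mul_nonneg
        refine ih (n - 1) (by omega) (H ::ₘ J) b v c (by rw [Multiset.sum_cons]; omega)
          (Multiset.cons_ne_zero) ?_ (by omega) (by omega) (by omega) (by omega)
        intro x hx
        rw [Multiset.mem_cons] at hx
        rcases hx with rfl | hx
        · omega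
        · exact hJpos x hx
      · rcases Nat.lt_or_ge (a + 1) M with hMa2 | hMa2
        · -- two steps
          obtain ⟨H, rfl⟩ : ∃ H, M = H + 2 := ⟨M - 2, by omega⟩
          obtain ⟨v, rfl⟩ : ∃ v, b = v + 2 := ⟨b - 2, by omega⟩
          obtain ⟨y, hy⟩ : ∃ y, J.sum = y + 1 + v + 1 := ⟨J.sum - v - 2, by omega⟩
          have h1 := two_step J hJpos H a v c y (by omega) (by omega) (by omega) (by omega)
            hy (by omega)
          refine le_trans ?_ h1
          apply count_mul_nonneg
          refine ih (n - 2) (by omega) (H ::ₘ J) a v c (by rw [Multiset.sum_cons]; omega)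
            (Multiset.cons_ne_zero) ?_ (by omega) (by omega) (by omega) (by omega)
          intro x hx
          rw [Multiset.mem_cons] at hx
          rcases hx with rfl | hx
          · omega
          · exact hJpos x hx
        · -- one step
          obtain ⟨H, rfl⟩ : ∃ H, M = H + 1 := ⟨M - 1, by omega⟩
          obtain ⟨v, rfl⟩ : ∃ v, b = v + 1 := ⟨b - 1, by omega⟩
          have hHa : H = a := by omega
          subst hHa
          obtain ⟨y, hy⟩ : ∃ y, J.sum = y + v + 1 := ⟨J.sum - v - 1, by omega⟩
          have hcy : c = y + 2 := by omega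
          subst hcy
          have h1 := one_step J hJpos H v y (by omega) (by omega) (by omega) hy
          refine le_trans ?_ h1
          apply count_mul_nonneg
          refine ih (n - 1) (by omega) (H ::ₘ J) H v (y + 2) (by rw [Multiset.sum_cons]; omega)
            (Multiset.cons_ne_zero) ?_ (by omega) (by omega) (by omega) (by omega)
          intro x hx
          rw [Multiset.mem_cons] at hx
          rcases hx with rfl | hx
          · omega
          · exact hJpos x hx

theorem WW_nonneg (lam : Multiset ℕ) (a b c : ℕ) (hlam : lam ≠ 0) (hpos : ∀ x ∈ lam, 2 ≤ x)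
    (h : a + b + c = lam.sum + 1) (h1 : 1 ≤ a) (h2 : 1 ≤ b) : 0 ≤ WW lam a b c :=
  WW_nonneg_aux lam.sum lam a b c rfl hlam hpos h (by omega) (by omega) (by omega)

/-! ### the final inequality -/

/-- product of `x - 1` -/
def pr (lam : Multiset ℕ) : ℤ := (lam.map (fun x : ℕ => (x : ℤ) - 1)).prod

lemma pr_cons (h : ℕ) (lam : Multiset ℕ) : pr (h ::ₘ lam) = ((h : ℤ) - 1) * pr lam := by
  simp [pr]

lemma pr_nonneg {lam : Multiset ℕ} (hpos : ∀ x ∈ lam, 1 ≤ x) : 0 ≤ pr lam := by
  unfold pr
  apply Multiset.prod_nonneg
  intro y hy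
  obtain ⟨x, hx, rfl⟩ := Multiset.mem_map.1 hy
  have := hpos x hx
  omega

lemma wt_cons (h : ℕ) (t : List ℕ) : wt (h :: t) = h * pr (t : Multiset ℕ) := by
  simp [wt, pr]

lemma pr_eq_zero {lam : Multiset ℕ} (h : 1 ∈ lam) : pr lam = 0 := by
  unfold pr
  apply Multiset.prod_eq_zero
  rw [Multiset.mem_map]
  exact ⟨1, h, by simp⟩

theorem part_I : S_I := by
  intro lam a b c hpos ha hb hc hs
  change 0 ≤ ∑ L ∈ ar lam, wt L * cc L a b c
  have hlam : lam ≠ 0 := by rintro rfl; simp at hs; omega
  by_cases h1 : 1 ∈ lam
  · obtain ⟨mu, hmu⟩ := Multiset.exists_cons_of_mem h1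
    -- only the lists starting with 1 contribute
    have e1 : ∑ L ∈ ar lam, wt L * cc L a b c =
        ∑ f ∈ lam.toFinset, ∑ I ∈ ar (lam.erase f), wt (f :: I) * cc (f :: I) a b c :=
      (sum_first lam hlam (fun f I => wt (f :: I) * cc (f :: I) a b c)
        (fun L => wt L * cc L a b c) (fun _ _ => rfl)).symm
    rw [e1]
    apply sum_nonneg
    intro f hf
    rw [Multiset.mem_toFinset] at hf
    by_cases hf1 : f = 1
    · subst hf1
      have hs' := sum_erase hf
      have e2 : ∑ I ∈ ar (lam.erase 1), wt (1 :: I) * cc (1 :: I) a b c =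
          pr (lam.erase 1) * UU (lam.erase 1) (a - 1) (b - 1) (c - 1) := by
        unfold UU
        rw [mul_sum]
        apply sum_congr rfl
        intro I hI
        rw [mem_ar] at hI
        rw [wt_cons, hI]
        unfold cc
        rw [Phi_sum, ← Multiset.cons_coe, SS_cons, hI, Phi_cons, Phi_cons, Phi_cons,
          phi_one_left, phi_one_left, phi_one_left, phi_one_left]
        simp
      rw [e2]
      apply mul_nonneg
      · exact pr_nonneg (fun x hx => hpos x (Multiset.mem_of_mem_erase hx))
      · apply UU_nonneg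
        · exact fun x hx => hpos x (Multiset.mem_of_mem_erase hx)
        · omega
    · apply le_of_eq
      symm
      apply sum_eq_zero
      intro I hI
      rw [mem_ar] at hI
      rw [wt_cons, hI, pr_eq_zero, mul_zero, zero_mul]
      rw [Multiset.mem_erase_of_ne (fun h => hf1 h.symm)]
      exact h1
  · have hpos2 : ∀ x ∈ lam, 2 ≤ x := by
      intro x hx
      have := hpos x hx
      rcases Nat.lt_or_ge 1 x with h | h
      · exact h
      · have : x = 1 := by omega
        subst this
        exact absurd hx h1
    have hW := WW_nonneg lam a b c hlam hpos2 (by omega) ha hb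
    have hp : (0:ℚ) ≤ (pr lam : ℤ) := by exact_mod_cast pr_nonneg hpos
    have e : ((∑ L ∈ ar lam, wt L * cc L a b c : ℤ) : ℚ) = (pr lam : ℤ) * WW lam a b c := by
      unfold WW
      rw [mul_sum, Int.cast_sum]
      apply sum_congr rfl
      intro L hL
      rw [mem_ar] at hL
      cases L with
      | nil => exact absurd hL.symm hlam
      | cons f I =>
        have hf : 2 ≤ f := hpos2 f (by rw [← hL]; simp)
        rw [wt_cons]
        simp only [List.headD_cons]
        have e1 : pr lam = ((f : ℤ) - 1) * pr (I : Multiset ℕ) := by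
          rw [← hL, ← Multiset.cons_coe, pr_cons]
        rw [e1]
        have := g_mul hf
        push_cast
        linear_combination (-((pr (I : Multiset ℕ) : ℤ) : ℚ) * ((cc (f :: I) a b c : ℤ) : ℚ)) * this
    have : (0:ℚ) ≤ ((∑ L ∈ ar lam, wt L * cc L a b c : ℤ) : ℚ) := by
      rw [e]; exact mul_nonneg hp hW
    exact_mod_cast this

end Pool.Agent.W260.Theta
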