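import Pool.Agent.W260.Theta.Defs

/-!
Lemmas on `phi`, `Phi` and the finsets of arrangements.
-/

set_option autoImplicit false

namespace Pool.Agent.W260.Theta

open Finset

/-! ### phi -/

lemma two_phi_of_le {h r : ℕ} (hr : r ≤ h) : 2 * phi h r = r * (2 * h - 1 - r) := by
  unfold phi
  rw [min_eq_left hr]
  clear hr
  induction r with
  | zero => simp
  | succ r ih =>
    rw [sum_range_succ, mul_add, ih]
    push_cast
    ring

lemma phi_of_ge {h r : ℕ} (hr : h ≤ r) : phi h r = phi h h := by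
  unfold phi
  rw [min_eq_right hr, min_self]

lemma two_phi_self (h : ℕ) : 2 * phi h h = h * (h - 1) := by
  rw [two_phi_of_le le_rfl]; ring

@[simp] lemma phi_zero (h : ℕ) : phi h 0 = 0 := by simp [phi]

lemma phi_nonneg (h r : ℕ) : 0 ≤ phi h r := by
  unfold phi
  apply sum_nonneg
  intro i hi
  have : i < min r h := by simpa using hi
  have : i < h := lt_of_lt_of_le this (min_le_right _ _)
  omega

lemma phi_mono (h : ℕ) {r s : ℕ} (hrs : r ≤ s) : phi h r ≤ phi h s := by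
  unfold phi
  apply sum_le_sum_of_subset_of_nonneg
  · intro i hi
    simp only [mem_range, lt_min_iff] at hi ⊢
    omega
  · intro i hi _
    simp only [mem_range, lt_min_iff] at hi
    omega

lemma phi_le_self (h r : ℕ) : phi h r ≤ phi h h := by
  rcases le_total r h with h1 | h1
  · exact phi_mono h h1
  · rw [phi_of_ge h1]

lemma phi_succ_left {h r : ℕ} (hr : r ≤ h) : phi (h + 1) r = phi h r + r := by
  have h1 := two_phi_of_le (h := h + 1) (r := r) (by omega)
  have h2 := two_phi_of_le hr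
  push_cast at h1
  linarith

lemma phi_succ_succ {h r : ℕ} (hr : r ≤ h) : phi (h + 1) (r + 1) = phi h r + h := by
  have h1 := two_phi_of_le (h := h + 1) (r := r + 1) (by omega)
  have h2 := two_phi_of_le hr
  push_cast at h1
  linarith

lemma phi_one_left (r : ℕ) : phi 1 r = 0 := by
  rcases Nat.eq_zero_or_pos r with h | h
  · subst h; simp
  · rw [phi_of_ge h]
    have := two_phi_self 1
    simp at this
    exact this

lemma phi_one_right {h : ℕ} (hh : 1 ≤ h) : phi h 1 = h - 1 := by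
  have := two_phi_of_le hh
  push_cast at this
  linarith

/-! ### Phi -/

@[simp] lemma Phi_nil (m : ℕ) : Phi [] m = 0 := rfl

lemma Phi_cons (h : ℕ) (t : List ℕ) (m : ℕ) : Phi (h :: t) m = phi h m + Phi t (m - h) := rfl

@[simp] lemma Phi_zero (L : List ℕ) : Phi L 0 = 0 := by
  induction L with
  | nil => rfl
  | cons h t ih => simp [Phi_cons, ih]

lemma Phi_nonneg (L : List ℕ) (m : ℕ) : 0 ≤ Phi L m := by
  induction L generalizing m with
  | nil => simp
  | cons h t ih => rw [Phi_cons]; exact add_nonneg (phi_nonneg _ _) (ih _)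

lemma Phi_mono (L : List ℕ) {m m' : ℕ} (h : m ≤ m') : Phi L m ≤ Phi L m' := by
  induction L generalizing m m' with
  | nil => simp
  | cons a t ih => rw [Phi_cons, Phi_cons]; exact add_le_add (phi_mono _ h) (ih (by omega))

lemma Phi_append (P Q : List ℕ) (m : ℕ) : Phi (P ++ Q) m = Phi P m + Phi Q (m - P.sum) := by
  induction P generalizing m with
  | nil => simp
  | cons h t ih =>
    rw [List.cons_append, Phi_cons, Phi_cons, ih, List.sum_cons, Nat.sub_sub]
    ring

lemma Phi_of_ge (L : List ℕ) {m : ℕ} (h : L.sum ≤ m) : Phi L m = Phi L L.sum := by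
  induction L generalizing m with
  | nil => simp
  | cons a t ih =>
    rw [List.sum_cons] at h ⊢
    rw [Phi_cons, Phi_cons, phi_of_ge (by omega : a ≤ m), phi_of_ge (by omega : a ≤ a + t.sum),
      ih (by omega), Nat.add_sub_cancel_left]

/-- total number of pairs -/
def SS (J : Multiset ℕ) : ℤ := (J.map (fun h => phi h h)).sum

@[simp] lemma SS_zero : SS 0 = 0 := rfl

@[simp] lemma SS_cons (h : ℕ) (J : Multiset ℕ) : SS (h ::ₘ J) = phi h h + SS J := by
  simp [SS]

lemma SS_add (J K : Multiset ℕ) : SS (J + K) = SS J + SS K := by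
  simp [SS]

lemma SS_nonneg (J : Multiset ℕ) : 0 ≤ SS J := by
  unfold SS
  apply Multiset.sum_nonneg
  intro x hx
  obtain ⟨h, _, rfl⟩ := Multiset.mem_map.1 hx
  exact phi_nonneg _ _

lemma Phi_total (L : List ℕ) {m : ℕ} (h : L.sum ≤ m) : Phi L m = SS (L : Multiset ℕ) := by
  induction L generalizing m with
  | nil => simp
  | cons a t ih =>
    rw [List.sum_cons] at h
    rw [Phi_cons, phi_of_ge (by omega : a ≤ m), ih (by omega), ← Multiset.cons_coe, SS_cons]

lemma Phi_sum (L : List ℕ) : Phi L L.sum = SS (L : Multiset ℕ) := Phi_total L le_rfl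

/-- `2 SS ≤ k (k - 1)` -/
lemma two_SS_le (J : Multiset ℕ) : 2 * SS J ≤ J.sum * (J.sum - 1) := by
  induction J using Multiset.induction with
  | empty => simp
  | cons h J ih =>
    rw [SS_cons, Multiset.sum_cons, mul_add, two_phi_self, Nat.cast_add]
    have h1 : (0:ℤ) ≤ h := Int.natCast_nonneg _
    have h2 : (0:ℤ) ≤ (J.sum : ℕ) := Int.natCast_nonneg _
    nlinarith [mul_nonneg h1 h2]

/-! ### arrangements -/

/-- the lists whose underlying multiset is `lam` -/
def ar (lam : Multiset ℕ) : Finset (List ℕ) := (Multiset.lists lam).toFinset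

@[simp] lemma mem_ar {lam : Multiset ℕ} {L : List ℕ} : L ∈ ar lam ↔ (L : Multiset ℕ) = lam := by
  unfold ar
  rw [Multiset.mem_toFinset, Multiset.mem_lists_iff]
  exact eq_comm

lemma ar_nonempty (lam : Multiset ℕ) : (ar lam).Nonempty :=
  ⟨lam.toList, by simp⟩

lemma sum_eq_of_ar {lam : Multiset ℕ} {L : List ℕ} (h : (L : Multiset ℕ) = lam) :
    L.sum = lam.sum := by
  rw [← h, Multiset.sum_coe]

/-- lists contained in `lam` -/
def sb (lam : Multiset ℕ) : Finset (List ℕ) := lam.powerset.toFinset.biUnion ar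

lemma mem_sb {lam : Multiset ℕ} {L : List ℕ} : L ∈ sb lam ↔ (L : Multiset ℕ) ≤ lam := by
  simp [sb]

/-- pairs of lists with total multiset `lam` -/
def ar2 (lam : Multiset ℕ) : Finset (List ℕ × List ℕ) :=
  (sb lam ×ˢ sb lam).filter (fun x => (x.1 : Multiset ℕ) + (x.2 : Multiset ℕ) = lam)

@[simp] lemma mem_ar2 {lam : Multiset ℕ} {x : List ℕ × List ℕ} :
    x ∈ ar2 lam ↔ (x.1 : Multiset ℕ) + (x.2 : Multiset ℕ) = lam := by
  unfold ar2
  rw [mem_filter, mem_product, mem_sb, mem_sb]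
  constructor
  · exact fun h => h.2
  · intro h
    refine ⟨⟨?_, ?_⟩, h⟩ <;> rw [← h]
    · exact Multiset.le_add_right _ _
    · exact Multiset.le_add_left _ _

/-- a list, a marked block, a list, with total multiset `lam` -/
def ar3 (lam : Multiset ℕ) : Finset (List ℕ × ℕ × List ℕ) :=
  (sb lam ×ˢ lam.toFinset ×ˢ sb lam).filter
    (fun x => (x.1 : Multiset ℕ) + {x.2.1} + (x.2.2 : Multiset ℕ) = lam)

@[simp] lemma mem_ar3 {lam : Multiset ℕ} {x : List ℕ × ℕ × List ℕ} :
    x ∈ ar3 lam ↔ (x.1 : Multiset ℕ) + {x.2.1} + (x.2.2 : Multiset ℕ) = lam := by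
  unfold ar3
  rw [mem_filter, mem_product, mem_product, mem_sb, mem_sb, Multiset.mem_toFinset]
  constructor
  · exact fun h => h.2
  · intro h
    refine ⟨⟨?_, ?_, ?_⟩, h⟩
    · rw [← h, add_assoc]; exact Multiset.le_add_right _ _
    · rw [← h]; simp
    · rw [← h]; exact Multiset.le_add_left _ _

/-- two lists, a marked block, a list, with total multiset `lam` -/
def ar4 (lam : Multiset ℕ) : Finset (List ℕ × List ℕ × ℕ × List ℕ) :=
  (sb lam ×ˢ sb lam ×ˢ lam.toFinset ×ˢ sb lam).filter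
    (fun x => (x.1 : Multiset ℕ) + (x.2.1 : Multiset ℕ) + {x.2.2.1} + (x.2.2.2 : Multiset ℕ) = lam)

@[simp] lemma mem_ar4 {lam : Multiset ℕ} {x : List ℕ × List ℕ × ℕ × List ℕ} :
    x ∈ ar4 lam ↔
      (x.1 : Multiset ℕ) + (x.2.1 : Multiset ℕ) + {x.2.2.1} + (x.2.2.2 : Multiset ℕ) = lam := by
  unfold ar4
  rw [mem_filter, mem_product, mem_product, mem_product, mem_sb, mem_sb, mem_sb,
    Multiset.mem_toFinset]
  constructor
  · exact fun h => h.2
  · intro h
    refine ⟨⟨?_, ?_, ?_, ?_⟩, h⟩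
    · rw [← h, add_assoc, add_assoc]; exact Multiset.le_add_right _ _
    · rw [← h, add_assoc, add_assoc, add_left_comm]; exact Multiset.le_add_right _ _
    · rw [← h]; simp
    · rw [← h]; exact Multiset.le_add_left _ _

/-- list, marked block, list, marked block, list, with total multiset `lam` -/
def ar5 (lam : Multiset ℕ) : Finset (List ℕ × ℕ × List ℕ × ℕ × List ℕ) :=
  (sb lam ×ˢ lam.toFinset ×ˢ sb lam ×ˢ lam.toFinset ×ˢ sb lam).filter
    (fun x => (x.1 : Multiset ℕ) + {x.2.1} + (x.2.2.1 : Multiset ℕ) + {x.2.2.2.1} +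
      (x.2.2.2.2 : Multiset ℕ) = lam)

@[simp] lemma mem_ar5 {lam : Multiset ℕ} {x : List ℕ × ℕ × List ℕ × ℕ × List ℕ} :
    x ∈ ar5 lam ↔ (x.1 : Multiset ℕ) + {x.2.1} + (x.2.2.1 : Multiset ℕ) + {x.2.2.2.1} +
      (x.2.2.2.2 : Multiset ℕ) = lam := by
  unfold ar5
  rw [mem_filter, mem_product, mem_product, mem_product, mem_product, mem_sb, mem_sb, mem_sb,
    Multiset.mem_toFinset, Multiset.mem_toFinset]
  constructor
  · exact fun h => h.2
  · intro h
    refine ⟨⟨?_, ?_, ?_, ?_, ?_⟩, h⟩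
    · rw [← h, add_assoc, add_assoc, add_assoc]; exact Multiset.le_add_right _ _
    · rw [← h]; simp
    · have : (x.1 : Multiset ℕ) + {x.2.1} + (x.2.2.1 : Multiset ℕ) + {x.2.2.2.1} +
          (x.2.2.2.2 : Multiset ℕ) = (x.2.2.1 : Multiset ℕ) + ((x.1 : Multiset ℕ) + {x.2.1} +
          {x.2.2.2.1} + (x.2.2.2.2 : Multiset ℕ)) := by abel
      rw [← h, this]
      exact Multiset.le_add_right _ _
    · rw [← h]; simp
    · rw [← h]; exact Multiset.le_add_left _ _

/-! ### splitting a list at a position -/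

/-- split `L` at the block containing position `y` (0-based) -/
def spl : ℕ → List ℕ → List ℕ × ℕ × List ℕ
  | _, [] => ([], 0, [])
  | y, h :: t => if y < h then ([], h, t) else (h :: (spl (y - h) t).1, (spl (y - h) t).2)

lemma spl_spec (L : List ℕ) (y : ℕ) (hy : y < L.sum) :
    (spl y L).1 ++ (spl y L).2.1 :: (spl y L).2.2 = L ∧ (spl y L).1.sum ≤ y ∧
      y < (spl y L).1.sum + (spl y L).2.1 := by
  induction L generalizing y with
  | nil => simp at hy
  | cons h t ih =>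
    rw [List.sum_cons] at hy
    unfold spl
    split_ifs with h1
    · simp [h1]
    · obtain ⟨e1, e2, e3⟩ := ih (y - h) (by omega)
      refine ⟨?_, ?_, ?_⟩
      · simp [e1]
      · simp only [List.sum_cons]; omega
      · simp only [List.sum_cons]; omega

lemma spl_unique (P : List ℕ) (q : ℕ) (Q : List ℕ) (y : ℕ) (h1 : P.sum ≤ y)
    (h2 : y < P.sum + q) : spl y (P ++ q :: Q) = (P, q, Q) := by
  induction P generalizing y with
  | nil =>
    simp only [List.nil_append, spl]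
    rw [if_pos (by simpa using h2)]
  | cons h t ih =>
    rw [List.sum_cons] at h1 h2
    simp only [List.cons_append, spl]
    rw [if_neg (by omega), ih (y - h) (by omega) (by omega)]

/-- arrangements with a covering block of position `y` -/
def cov (lam : Multiset ℕ) (y : ℕ) : Finset (List ℕ × ℕ × List ℕ) :=
  (ar3 lam).filter (fun x => x.1.sum ≤ y ∧ y < x.1.sum + x.2.1)

lemma mem_cov {lam : Multiset ℕ} {y : ℕ} {x : List ℕ × ℕ × List ℕ} :
    x ∈ cov lam y ↔ (x.1 : Multiset ℕ) + {x.2.1} + (x.2.2 : Multiset ℕ) = lam ∧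
      x.1.sum ≤ y ∧ y < x.1.sum + x.2.1 := by
  unfold cov
  rw [mem_filter, mem_ar3]

lemma coe_split (P : List ℕ) (q : ℕ) (Q : List ℕ) :
    ((P ++ q :: Q : List ℕ) : Multiset ℕ) = (P : Multiset ℕ) + {q} + (Q : Multiset ℕ) := by
  rw [← Multiset.coe_add, ← Multiset.cons_coe, ← Multiset.singleton_add, add_assoc]

variable {A : Type*} [AddCommMonoid A]

/-- (B1) each arrangement has exactly one covering block -/
lemma sum_ar_eq_sum_cov (lam : Multiset ℕ) (y : ℕ) (hy : y < lam.sum) (F : List ℕ → A) :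
    ∑ L ∈ ar lam, F L = ∑ x ∈ cov lam y, F (x.1 ++ x.2.1 :: x.2.2) := by
  refine Finset.sum_bij' (fun L _ => spl y L) (fun x _ => x.1 ++ x.2.1 :: x.2.2) ?_ ?_ ?_ ?_ ?_
  · intro L hL
    rw [mem_ar] at hL
    have hs := spl_spec L y (by rw [sum_eq_of_ar hL]; exact hy)
    rw [mem_cov]
    refine ⟨?_, hs.2.1, hs.2.2⟩
    rw [← coe_split, hs.1, hL]
  · intro x hx
    rw [mem_cov] at hx
    rw [mem_ar, coe_split]
    exact hx.1
  · intro L hL
    rw [mem_ar] at hL
    exact (spl_spec L y (by rw [sum_eq_of_ar hL]; exact hy)).1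
  · intro x hx
    rw [mem_cov] at hx
    exact spl_unique _ _ _ _ hx.2.1 hx.2.2
  · intro L hL
    rw [mem_ar] at hL
    rw [(spl_spec L y (by rw [sum_eq_of_ar hL]; exact hy)).1]

lemma card_ar_eq_card_cov (lam : Multiset ℕ) (y : ℕ) (hy : y < lam.sum) :
    (ar lam).card = (cov lam y).card := by
  rw [card_eq_sum_ones, card_eq_sum_ones]
  exact sum_ar_eq_sum_cov lam y hy (fun _ => 1)

/-- covering block together with an earlier marked block -/
def cov5 (lam : Multiset ℕ) (y : ℕ) : Finset (List ℕ × ℕ × List ℕ × ℕ × List ℕ) :=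
  (ar5 lam).filter (fun x => x.1.sum + x.2.1 + x.2.2.1.sum ≤ y ∧
    y < x.1.sum + x.2.1 + x.2.2.1.sum + x.2.2.2.1)

lemma mem_cov5 {lam : Multiset ℕ} {y : ℕ} {x : List ℕ × ℕ × List ℕ × ℕ × List ℕ} :
    x ∈ cov5 lam y ↔ (x.1 : Multiset ℕ) + {x.2.1} + (x.2.2.1 : Multiset ℕ) + {x.2.2.2.1} +
      (x.2.2.2.2 : Multiset ℕ) = lam ∧ x.1.sum + x.2.1 + x.2.2.1.sum ≤ y ∧
    y < x.1.sum + x.2.1 + x.2.2.1.sum + x.2.2.2.1 := by
  unfold cov5
  rw [mem_filter, mem_ar5]

lemma sum_of_ar3 {lam : Multiset ℕ} {P : List ℕ} {q : ℕ} {Q : List ℕ}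
    (h : (P : Multiset ℕ) + {q} + (Q : Multiset ℕ) = lam) : P.sum + q + Q.sum = lam.sum := by
  rw [← h]
  simp [Multiset.sum_add, Multiset.sum_coe]

/-- (B2) a marked block ending at or before `y`: insert the covering block -/
lemma sum_ar3_le (lam : Multiset ℕ) (y : ℕ) (hy : y < lam.sum)
    (F : List ℕ × ℕ × List ℕ → A) :
    ∑ x ∈ (ar3 lam).filter (fun x => x.1.sum + x.2.1 ≤ y), F x =
      ∑ z ∈ cov5 lam y, F (z.1, z.2.1, z.2.2.1 ++ z.2.2.2.1 :: z.2.2.2.2) := by
  refine Finset.sum_bij'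
    (fun x _ => (x.1, x.2.1, (spl (y - (x.1.sum + x.2.1)) x.2.2).1,
      (spl (y - (x.1.sum + x.2.1)) x.2.2).2.1, (spl (y - (x.1.sum + x.2.1)) x.2.2).2.2))
    (fun z _ => (z.1, z.2.1, z.2.2.1 ++ z.2.2.2.1 :: z.2.2.2.2)) ?_ ?_ ?_ ?_ ?_
  · rintro ⟨P, f, Q⟩ hx
    rw [mem_filter, mem_ar3] at hx
    obtain ⟨hx, hle⟩ := hx
    simp only at hx hle ⊢
    have hs := sum_of_ar3 hx
    obtain ⟨e1, e2, e3⟩ := spl_spec Q (y - (P.sum + f)) (by omega)
    rw [mem_cov5]
    simp only
    refine ⟨?_, by omega, by omega⟩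
    rw [add_assoc, add_assoc, ← add_assoc (((spl (y - (P.sum + f)) Q).1 : List ℕ) : Multiset ℕ),
      ← coe_split, e1, hx]
  · rintro ⟨P, f, P2, q, Q⟩ hz
    rw [mem_cov5] at hz
    obtain ⟨hz, h1, h2⟩ := hz
    simp only at hz h1 h2 ⊢
    rw [mem_filter, mem_ar3]
    simp only
    refine ⟨?_, by omega⟩
    rw [coe_split, ← hz]
    abel
  · rintro ⟨P, f, Q⟩ hx
    rw [mem_filter, mem_ar3] at hx
    obtain ⟨hx, hle⟩ := hx
    simp only at hx hle ⊢
    have hs := sum_of_ar3 hx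
    obtain ⟨e1, e2, e3⟩ := spl_spec Q (y - (P.sum + f)) (by omega)
    rw [e1]
  · rintro ⟨P, f, P2, q, Q⟩ hz
    rw [mem_cov5] at hz
    obtain ⟨hz, h1, h2⟩ := hz
    simp only at hz h1 h2 ⊢
    rw [spl_unique P2 q Q (y - (P.sum + f)) (by omega) (by omega)]
  · rintro ⟨P, f, Q⟩ hx
    rw [mem_filter, mem_ar3] at hx
    obtain ⟨hx, hle⟩ := hx
    simp only at hx hle ⊢
    have hs := sum_of_ar3 hx
    obtain ⟨e1, e2, e3⟩ := spl_spec Q (y - (P.sum + f)) (by omega)
    rw [e1]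

end Pool.Agent.W260.Theta
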