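import Pool.Agent.W260.Theta.Blocks

/-!
Bijections between sums over arrangements.
-/

set_option autoImplicit false

namespace Pool.Agent.W260.Theta

open Finset

variable {A : Type*} [AddCommMonoid A]

lemma sum_ar2_swap (lam : Multiset ℕ) (F : List ℕ × List ℕ → A) :
    ∑ x ∈ ar2 lam, F x = ∑ x ∈ ar2 lam, F (x.2, x.1) := by
  refine Finset.sum_bij' (fun x _ => (x.2, x.1)) (fun x _ => (x.2, x.1)) ?_ ?_ ?_ ?_ ?_
  · rintro ⟨P, Q⟩ hx
    rw [mem_ar2] at hx ⊢
    rw [← hx, add_comm]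
  · rintro ⟨P, Q⟩ hx
    rw [mem_ar2] at hx ⊢
    rw [← hx, add_comm]
  · intros; rfl
  · intros; rfl
  · intros; rfl

lemma sum_ar3_swap (lam : Multiset ℕ) (F : List ℕ × ℕ × List ℕ → A) :
    ∑ x ∈ ar3 lam, F x = ∑ x ∈ ar3 lam, F (x.2.2, x.2.1, x.1) := by
  refine Finset.sum_bij' (fun x _ => (x.2.2, x.2.1, x.1)) (fun x _ => (x.2.2, x.2.1, x.1))
    ?_ ?_ ?_ ?_ ?_
  · rintro ⟨P, f, Q⟩ hx
    rw [mem_ar3] at hx ⊢
    rw [← hx]; simp only; abel
  · rintro ⟨P, f, Q⟩ hx
    rw [mem_ar3] at hx ⊢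
    rw [← hx]; simp only; abel
  · intros; rfl
  · intros; rfl
  · intros; rfl

lemma sum_cov5_swap (lam : Multiset ℕ) (y : ℕ) (F : List ℕ × ℕ × List ℕ × ℕ × List ℕ → A) :
    ∑ x ∈ cov5 lam y, F x = ∑ x ∈ cov5 lam y, F (x.2.2.1, x.2.1, x.1, x.2.2.2) := by
  refine Finset.sum_bij' (fun x _ => (x.2.2.1, x.2.1, x.1, x.2.2.2))
    (fun x _ => (x.2.2.1, x.2.1, x.1, x.2.2.2)) ?_ ?_ ?_ ?_ ?_
  · rintro ⟨P, f, P2, q, Q⟩ hx
    rw [mem_cov5] at hx ⊢
    obtain ⟨h1, h2, h3⟩ := hx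
    simp only at h1 h2 h3 ⊢
    refine ⟨?_, by omega, by omega⟩
    rw [← h1]; abel
  · rintro ⟨P, f, P2, q, Q⟩ hx
    rw [mem_cov5] at hx ⊢
    obtain ⟨h1, h2, h3⟩ := hx
    simp only at h1 h2 h3 ⊢
    refine ⟨?_, by omega, by omega⟩
    rw [← h1]; abel
  · intros; rfl
  · intros; rfl
  · intros; rfl

/-- decompose pairs according to the first block of the first list -/
lemma sum_ar2_eq (lam : Multiset ℕ) (F : List ℕ × List ℕ → A) :
    ∑ x ∈ ar2 lam, F x =
      ∑ L ∈ ar lam, F ([], L) + ∑ x ∈ ar3 lam, F (x.2.1 :: x.1, x.2.2) := by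
  rw [← Finset.sum_filter_add_sum_filter_not (ar2 lam) (fun x => x.1 = [])]
  congr 1
  · refine Finset.sum_bij' (fun x _ => x.2) (fun L _ => ([], L)) ?_ ?_ ?_ ?_ ?_
    · rintro ⟨P, Q⟩ hx
      rw [mem_filter, mem_ar2] at hx
      obtain ⟨h1, h2⟩ := hx
      simp only at h1 h2 ⊢
      subst h2
      rw [mem_ar, ← h1]; simp
    · intro L hL
      rw [mem_ar] at hL
      rw [mem_filter, mem_ar2]
      simp [hL]
    · rintro ⟨P, Q⟩ hx
      rw [mem_filter, mem_ar2] at hx
      obtain ⟨h1, h2⟩ := hx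
      simp only at h1 h2 ⊢
      rw [h2]
    · intros; rfl
    · rintro ⟨P, Q⟩ hx
      rw [mem_filter, mem_ar2] at hx
      obtain ⟨h1, h2⟩ := hx
      simp only at h1 h2 ⊢
      rw [h2]
  · refine Finset.sum_bij' (fun x _ => (x.1.tail, x.1.headD 0, x.2))
      (fun x _ => (x.2.1 :: x.1, x.2.2)) ?_ ?_ ?_ ?_ ?_
    · rintro ⟨P, Q⟩ hx
      rw [mem_filter, mem_ar2] at hx
      obtain ⟨h1, h2⟩ := hx
      simp only at h1 h2 ⊢
      cases P with
      | nil => exact absurd rfl h2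
      | cons f P =>
        rw [mem_ar3, ← h1]
        simp only [List.tail_cons, List.headD_cons]
        rw [← Multiset.cons_coe, ← Multiset.singleton_add]
        abel
    · rintro ⟨P, f, Q⟩ hx
      rw [mem_ar3] at hx
      rw [mem_filter, mem_ar2]
      simp only at hx ⊢
      refine ⟨?_, by simp⟩
      rw [← hx, ← Multiset.cons_coe, ← Multiset.singleton_add]
      abel
    · rintro ⟨P, Q⟩ hx
      rw [mem_filter, mem_ar2] at hx
      obtain ⟨h1, h2⟩ := hx
      simp only at h1 h2 ⊢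
      cases P with
      | nil => exact absurd rfl h2
      | cons f P => rfl
    · intros; rfl
    · rintro ⟨P, Q⟩ hx
      rw [mem_filter, mem_ar2] at hx
      obtain ⟨h1, h2⟩ := hx
      simp only at h1 h2 ⊢
      cases P with
      | nil => exact absurd rfl h2
      | cons f P => rfl

/-- inserting `H` everywhere -/
lemma sum_ar2_insert {B : Type*} [CommSemiring B] (J : Multiset ℕ) (H : ℕ) (F : List ℕ → B) :
    ∑ x ∈ ar2 J, F (x.1 ++ H :: x.2) =
      ((H ::ₘ J).count H : B) * ∑ L ∈ ar (H ::ₘ J), F L := by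
  have hmaps : ∀ x ∈ ar2 J, x.1 ++ H :: x.2 ∈ ar (H ::ₘ J) := by
    rintro ⟨P, Q⟩ hx
    rw [mem_ar2] at hx
    rw [mem_ar, coe_split, ← hx, ← Multiset.singleton_add]
    simp only; abel
  rw [← Finset.sum_fiberwise_of_maps_to hmaps, Finset.mul_sum]
  apply Finset.sum_congr rfl
  intro L hL
  rw [mem_ar] at hL
  have h1 : ∀ x ∈ (ar2 J).filter (fun x => x.1 ++ H :: x.2 = L), F (x.1 ++ H :: x.2) = F L := by
    intro x hx
    rw [(mem_filter.1 hx).2]
  rw [Finset.sum_congr rfl h1, Finset.sum_const, nsmul_eq_mul]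
  congr 2
  -- count the number of positions
  have h2 : (ar2 J).filter (fun x => x.1 ++ H :: x.2 = L) =
      ((range L.length).filter (fun i => L.getD i 0 = H)).image
        (fun i => (L.take i, L.drop (i + 1))) := by
    ext ⟨P, Q⟩
    rw [mem_filter, mem_ar2, mem_image]
    constructor
    · rintro ⟨_, h⟩
      simp only at h
      refine ⟨P.length, ?_, ?_⟩
      · rw [mem_filter, mem_range, ← h]
        simp
      · rw [← h]; simp
    · rintro ⟨i, hi, h⟩
      rw [mem_filter, mem_range] at hi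
      obtain ⟨hi1, hi2⟩ := hi
      rw [Prod.mk.injEq] at h
      obtain ⟨rfl, rfl⟩ := h
      rw [List.getD_eq_getElem _ _ hi1] at hi2
      have e : L.take i ++ H :: L.drop (i + 1) = L := by
        rw [← hi2, List.getElem_cons_drop, List.take_append_drop]
      refine ⟨?_, e⟩
      have := congrArg (fun l : List ℕ => (l : Multiset ℕ)) e
      simp only [coe_split, hL] at this
      simp only
      apply add_left_cancel (a := ({H} : Multiset ℕ))
      rw [Multiset.singleton_add H J, ← this]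
      abel
  rw [h2, Finset.card_image_of_injOn]
  · rw [← hL, Multiset.coe_count, List.count_eq_countP]
    clear h2 h1 hL hmaps
    induction L with
    | nil => simp
    | cons a t ih =>
      rw [List.countP_cons, ← ih, List.length_cons, Finset.card_filter, Finset.sum_range_succ',
        Finset.card_filter]
      simp
  · intro i hi j hj hij
    rw [mem_coe, mem_filter, mem_range] at hi hj
    simp only [Prod.mk.injEq] at hij
    have := congrArg List.length hij.1
    rw [List.length_take, List.length_take] at this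
    omega

lemma count_cons_pos (J : Multiset ℕ) (H : ℕ) : 0 < (H ::ₘ J).count H := by
  simp

/-- sums over a removed block and the rest: first block -/
lemma sum_first (lam : Multiset ℕ) (hlam : lam ≠ 0) (F : ℕ → List ℕ → A) (F' : List ℕ → A)
    (h : ∀ f I, F' (f :: I) = F f I) :
    ∑ f ∈ lam.toFinset, ∑ I ∈ ar (lam.erase f), F f I = ∑ L ∈ ar lam, F' L := by
  rw [Finset.sum_sigma']
  refine Finset.sum_bij' (fun x _ => x.1 :: x.2) (fun L _ => ⟨L.headD 0, L.tail⟩) ?_ ?_ ?_ ?_ ?_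
  · rintro ⟨f, I⟩ hx
    rw [mem_sigma, Multiset.mem_toFinset, mem_ar] at hx
    obtain ⟨h1, h2⟩ := hx
    simp only at h1 h2
    rw [mem_ar, ← Multiset.cons_coe]
    simp only
    rw [h2, Multiset.cons_erase h1]
  · intro L hL
    rw [mem_ar] at hL
    cases L with
    | nil => exact absurd hL.symm hlam
    | cons f I =>
      rw [mem_sigma, Multiset.mem_toFinset, mem_ar]
      simp only [List.headD_cons, List.tail_cons]
      rw [← hL]
      simp
  · intros; rfl
  · intro L hL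
    rw [mem_ar] at hL
    cases L with
    | nil => exact absurd hL.symm hlam
    | cons f I => rfl
  · rintro ⟨f, I⟩ hx
    rw [h]

/-- sums over a removed block and the rest: last block -/
lemma sum_last (lam : Multiset ℕ) (hlam : lam ≠ 0) (F : ℕ → List ℕ → A) (F' : List ℕ → A)
    (h : ∀ f I, F' (I ++ [f]) = F f I) :
    ∑ f ∈ lam.toFinset, ∑ I ∈ ar (lam.erase f), F f I = ∑ L ∈ ar lam, F' L := by
  rw [sum_first lam hlam F (fun L => F (L.headD 0) L.tail) (fun f I => rfl)]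
  refine Finset.sum_bij' (fun L _ => L.tail ++ [L.headD 0])
    (fun L _ => L.getLastD 0 :: L.dropLast) ?_ ?_ ?_ ?_ ?_
  · intro L hL
    rw [mem_ar] at hL
    cases L with
    | nil => exact absurd hL.symm hlam
    | cons f I =>
      rw [mem_ar, ← hL]
      simp only [List.tail_cons, List.headD_cons]
      exact Multiset.coe_eq_coe.2 (List.perm_append_singleton f I)
  · intro L hL
    rw [mem_ar] at hL
    rcases List.eq_nil_or_concat L with h0 | ⟨I, f, h0⟩
    · rw [h0] at hL; exact absurd hL.symm hlam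
    · rw [List.concat_eq_append] at h0
      subst h0
      rw [mem_ar, ← hL, ← Multiset.cons_coe, ← Multiset.coe_add]
      simp only [List.getLastD_concat, List.dropLast_concat, Multiset.coe_singleton]
      rw [← Multiset.singleton_add, add_comm]
  · intro L hL
    rw [mem_ar] at hL
    cases L with
    | nil => exact absurd hL.symm hlam
    | cons f I => simp
  · intro L hL
    rw [mem_ar] at hL
    rcases List.eq_nil_or_concat L with h0 | ⟨I, f, h0⟩
    · rw [h0] at hL; exact absurd hL.symm hlam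
    · rw [List.concat_eq_append] at h0
      subst h0
      simp
  · intro L hL
    rw [h]

/-- sums over a removed block and the rest: second block -/
lemma sum_second (lam : Multiset ℕ) (hlam : 2 ≤ lam.card) (F : ℕ → List ℕ → A) (F' : List ℕ → A)
    (h : ∀ f h I, F' (h :: f :: I) = F f (h :: I)) :
    ∑ f ∈ lam.toFinset, ∑ I ∈ ar (lam.erase f), F f I = ∑ L ∈ ar lam, F' L := by
  have hlam0 : lam ≠ 0 := by rintro rfl; simp at hlam
  rw [sum_first lam hlam0 F (fun L => F (L.headD 0) L.tail) (fun f I => rfl)]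
  have key : ∀ L ∈ ar lam, ∃ a b I, L = a :: b :: I := by
    intro L hL
    rw [mem_ar] at hL
    have hc : L.length = lam.card := by rw [← hL]; simp
    match L, hc with
    | [], hc => simp at hc; omega
    | [a], hc => simp at hc; omega
    | a :: b :: I, _ => exact ⟨a, b, I, rfl⟩
  have hs : ∀ a b I, ((a :: b :: I : List ℕ) : Multiset ℕ) = lam →
      ((b :: a :: I : List ℕ) : Multiset ℕ) = lam := by
    intro a b I h
    rw [← h, Multiset.coe_eq_coe]
    exact List.Perm.swap _ _ _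
  refine Finset.sum_bij' (fun L _ => L.tail.headD 0 :: L.headD 0 :: L.tail.tail)
    (fun L _ => L.tail.headD 0 :: L.headD 0 :: L.tail.tail) ?_ ?_ ?_ ?_ ?_
  · intro L hL
    obtain ⟨a, b, I, rfl⟩ := key L hL
    rw [mem_ar] at hL ⊢
    exact hs _ _ _ hL
  · intro L hL
    obtain ⟨a, b, I, rfl⟩ := key L hL
    rw [mem_ar] at hL ⊢
    exact hs _ _ _ hL
  · intro L hL
    obtain ⟨a, b, I, rfl⟩ := key L hL
    rfl
  · intro L hL
    obtain ⟨a, b, I, rfl⟩ := key L hL
    rfl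
  · intro L hL
    obtain ⟨a, b, I, rfl⟩ := key L hL
    simp only [List.headD_cons, List.tail_cons]
    rw [h]

/-- two lists before the covering block -/
def cov4 (lam : Multiset ℕ) (y : ℕ) : Finset (List ℕ × List ℕ × ℕ × List ℕ) :=
  (ar4 lam).filter (fun x => x.1.sum + x.2.1.sum ≤ y ∧ y < x.1.sum + x.2.1.sum + x.2.2.1)

lemma mem_cov4 {lam : Multiset ℕ} {y : ℕ} {x : List ℕ × List ℕ × ℕ × List ℕ} :
    x ∈ cov4 lam y ↔
      (x.1 : Multiset ℕ) + (x.2.1 : Multiset ℕ) + {x.2.2.1} + (x.2.2.2 : Multiset ℕ) = lam ∧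
      x.1.sum + x.2.1.sum ≤ y ∧ y < x.1.sum + x.2.1.sum + x.2.2.1 := by
  unfold cov4
  rw [mem_filter, mem_ar4]

lemma sum_cov4_swap (lam : Multiset ℕ) (y : ℕ) (F : List ℕ × List ℕ × ℕ × List ℕ → A) :
    ∑ x ∈ cov4 lam y, F x = ∑ x ∈ cov4 lam y, F (x.2.1, x.1, x.2.2) := by
  refine Finset.sum_bij' (fun x _ => (x.2.1, x.1, x.2.2))
    (fun x _ => (x.2.1, x.1, x.2.2)) ?_ ?_ ?_ ?_ ?_
  · rintro ⟨P, P2, q, Q⟩ hx
    rw [mem_cov4] at hx ⊢
    obtain ⟨h1, h2, h3⟩ := hx
    simp only at h1 h2 h3 ⊢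
    refine ⟨?_, by omega, by omega⟩
    rw [← h1]; abel
  · rintro ⟨P, P2, q, Q⟩ hx
    rw [mem_cov4] at hx ⊢
    obtain ⟨h1, h2, h3⟩ := hx
    simp only at h1 h2 h3 ⊢
    refine ⟨?_, by omega, by omega⟩
    rw [← h1]; abel
  · intros; rfl
  · intros; rfl
  · intros; rfl

lemma sum_of_ar2 {lam : Multiset ℕ} {P Q : List ℕ}
    (h : (P : Multiset ℕ) + (Q : Multiset ℕ) = lam) : P.sum + Q.sum = lam.sum := by
  rw [← h]
  simp [Multiset.sum_add, Multiset.sum_coe]

/-- a cut at or before `y`: insert the covering block -/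
lemma sum_ar2_le (lam : Multiset ℕ) (y : ℕ) (hy : y < lam.sum) (F : List ℕ × List ℕ → A) :
    ∑ x ∈ (ar2 lam).filter (fun x => x.1.sum ≤ y), F x =
      ∑ z ∈ cov4 lam y, F (z.1, z.2.1 ++ z.2.2.1 :: z.2.2.2) := by
  refine Finset.sum_bij'
    (fun x _ => (x.1, (spl (y - x.1.sum) x.2).1,
      (spl (y - x.1.sum) x.2).2.1, (spl (y - x.1.sum) x.2).2.2))
    (fun z _ => (z.1, z.2.1 ++ z.2.2.1 :: z.2.2.2)) ?_ ?_ ?_ ?_ ?_
  · rintro ⟨P, Q⟩ hx
    rw [mem_filter, mem_ar2] at hx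
    obtain ⟨hx, hle⟩ := hx
    simp only at hx hle ⊢
    have hs := sum_of_ar2 hx
    obtain ⟨e1, e2, e3⟩ := spl_spec Q (y - P.sum) (by omega)
    rw [mem_cov4]
    simp only
    refine ⟨?_, by omega, by omega⟩
    rw [add_assoc, add_assoc, ← add_assoc (((spl (y - P.sum) Q).1 : List ℕ) : Multiset ℕ),
      ← coe_split, e1, hx]
  · rintro ⟨P, P2, q, Q⟩ hz
    rw [mem_cov4] at hz
    obtain ⟨hz, h1, h2⟩ := hz
    simp only at hz h1 h2 ⊢
    rw [mem_filter, mem_ar2]
    simp only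
    refine ⟨?_, by omega⟩
    rw [coe_split, ← hz]
    abel
  · rintro ⟨P, Q⟩ hx
    rw [mem_filter, mem_ar2] at hx
    obtain ⟨hx, hle⟩ := hx
    simp only at hx hle ⊢
    have hs := sum_of_ar2 hx
    obtain ⟨e1, e2, e3⟩ := spl_spec Q (y - P.sum) (by omega)
    rw [e1]
  · rintro ⟨P, P2, q, Q⟩ hz
    rw [mem_cov4] at hz
    obtain ⟨hz, h1, h2⟩ := hz
    simp only at hz h1 h2 ⊢
    rw [spl_unique P2 q Q (y - P.sum) (by omega) (by omega)]
  · rintro ⟨P, Q⟩ hx
    rw [mem_filter, mem_ar2] at hx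
    obtain ⟨hx, hle⟩ := hx
    simp only at hx hle ⊢
    have hs := sum_of_ar2 hx
    obtain ⟨e1, e2, e3⟩ := spl_spec Q (y - P.sum) (by omega)
    rw [e1]

/-- boundaries before `y` lie on average in the left half of `[0, y]` -/
lemma sum_bdry_nonneg (J : Multiset ℕ) (y : ℕ) (hy : y < J.sum) :
    0 ≤ ∑ x ∈ (ar2 J).filter (fun x => x.1.sum ≤ y), ((y : ℤ) - 2 * (x.1.sum : ℕ)) := by
  rw [sum_ar2_le J y hy (fun x => (y : ℤ) - 2 * (x.1.sum : ℕ))]
  have h1 := sum_cov4_swap J y (fun z => (y : ℤ) - 2 * (z.1.sum : ℕ))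
  simp only at h1 ⊢
  have h2 : 0 ≤ ∑ z ∈ cov4 J y, (((y : ℤ) - 2 * (z.1.sum : ℕ)) + ((y : ℤ) - 2 * (z.2.1.sum : ℕ))) := by
    apply Finset.sum_nonneg
    intro z hz
    rw [mem_cov4] at hz
    have := hz.2.1
    push_cast at this ⊢
    have h3 : ((z.1.sum : ℕ) : ℤ) + (z.2.1.sum : ℕ) ≤ y := by exact_mod_cast this
    linarith
  rw [Finset.sum_add_distrib, ← h1] at h2
  linarith

lemma sum_ar_reverse (lam : Multiset ℕ) (F : List ℕ → A) :
    ∑ L ∈ ar lam, F L = ∑ L ∈ ar lam, F L.reverse := by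
  refine Finset.sum_bij' (fun L _ => L.reverse) (fun L _ => L.reverse) ?_ ?_ ?_ ?_ ?_
  · intro L hL; rw [mem_ar] at hL ⊢; rw [← hL]; simp
  · intro L hL; rw [mem_ar] at hL ⊢; rw [← hL]; simp
  · intros; simp
  · intros; simp
  · intros; simp

lemma exists_max (lam : Multiset ℕ) (h : lam ≠ 0) : ∃ H ∈ lam, ∀ x ∈ lam, x ≤ H := by
  obtain ⟨H, hH, hmax⟩ := Finset.exists_max_image lam.toFinset id
    (by rwa [Multiset.toFinset_nonempty])
  exact ⟨H, Multiset.mem_toFinset.1 hH, fun x hx => hmax x (Multiset.mem_toFinset.2 hx)⟩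

end Pool.Agent.W260.Theta
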