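import Mathlib

/-!
Definitions for the e-positivity of theta graphs (MP_41216f_co, S08345).
-/

set_option autoImplicit false

namespace Pool.Agent.W260.Theta

open Finset

/-! ### Blocks (integer compositions as lists of naturals) -/

/-- number of pairs `i < j` inside a block of size `h` with `i` among the first `r` elements -/
def phi (h r : ℕ) : ℤ := ∑ i ∈ range (min r h), ((h : ℤ) - 1 - i)

/-- number of pairs `i < j` lying in a common block of the composition `L` with `i` among the
first `m` elements -/
def Phi : List ℕ → ℕ → ℤ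
  | [], _ => 0
  | h :: t, m => phi h m + Phi t (m - h)

/-- `h₁ (h₂ - 1) (h₃ - 1) ⋯` -/
def wt : List ℕ → ℤ
  | [] => 1
  | h :: t => h * (t.map (fun x : ℕ => (x : ℤ) - 1)).prod

/-- coefficient attached to a composition in the theta graph -/
def cc (L : List ℕ) (a b c : ℕ) : ℤ :=
  Phi L a + Phi L b + Phi L c - Phi L L.sum - ((L.headD 1 : ℕ) - 1 : ℤ)

/-! ### Sums over proper colourings -/

section alg
variable {ι R : Type*} [Fintype ι] [DecidableEq ι] [CommRing R] (x : ι → R)

/-- `Qp x m i j`: sum over the proper colourings of the `m` interior vertices of a path with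
`m + 1` edges whose ends are coloured `i` and `j` -/
def Qp : ℕ → ι → ι → R
  | 0, i, j => if i = j then 0 else 1
  | m + 1, i, j => ∑ k, Qp m i k * x k * (if k = j then 0 else 1)

/-- `rho x l i`: sum over the proper colourings of a tail with `l` vertices attached to a vertex
coloured `i` -/
def rho : ℕ → ι → R
  | 0, _ => 1
  | l + 1, i => ∑ k, (if i = k then 0 else 1) * x k * rho l k

/-- path with `n` vertices -/
def PP : ℕ → R
  | 0 => 1
  | n + 1 => ∑ k, x k * rho x n k

/-- cycle with `m + 1` vertices (`0` for `m = 0`) -/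
def CC (m : ℕ) : R := ∑ i, x i * Qp x m i i

/-- theta graph with paths of lengths `m₁ + 1`, `m₂ + 1`, `m₃ + 1` -/
def theta (m₁ m₂ m₃ : ℕ) : R :=
  ∑ i, ∑ j, x i * x j * Qp x m₁ i j * Qp x m₂ i j * Qp x m₃ i j

end alg

end Pool.Agent.W260.Theta
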