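import Pool.Agent.W260.Theta.Blocks2

/-!
First inequality: sum over arrangements of `Φ(a) + Φ(b) + Φ(c) - Φ(n)`, `a + b + c + 1 = n`.
-/

set_option autoImplicit false

namespace Pool.Agent.W260.Theta

open Finset

/-- `∑ (Φ(a) + Φ(b) + Φ(c) - Φ(n))` over the arrangements of `lam` -/
def UU (lam : Multiset ℕ) (a b c : ℕ) : ℤ :=
  ∑ L ∈ ar lam, (Phi L a + Phi L b + Phi L c - SS lam)

lemma UU_comm12 (lam : Multiset ℕ) (a b c : ℕ) : UU lam a b c = UU lam b a c := by
  unfold UU; apply sum_congr rfl; intros; ring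

lemma UU_comm23 (lam : Multiset ℕ) (a b c : ℕ) : UU lam a b c = UU lam a c b := by
  unfold UU; apply sum_congr rfl; intros; ring

lemma SS_erase {lam : Multiset ℕ} {f : ℕ} (h : f ∈ lam) :
    SS lam = phi f f + SS (lam.erase f) := by
  conv_lhs => rw [← Multiset.cons_erase h]
  rw [SS_cons]

lemma sum_erase {lam : Multiset ℕ} {f : ℕ} (h : f ∈ lam) :
    f + (lam.erase f).sum = lam.sum := by
  conv_rhs => rw [← Multiset.cons_erase h]
  rw [Multiset.sum_cons]

/-- recursion -/
lemma UU_rec (lam : Multiset ℕ) (hlam : lam ≠ 0) (a b c : ℕ)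
    (hb : ∀ f ∈ lam, b + f ≤ lam.sum) (hc : ∀ f ∈ lam, c + f ≤ lam.sum) :
    UU lam a b c = ∑ f ∈ lam.toFinset, ∑ I ∈ ar (lam.erase f),
      ((phi f a - phi f f) + (Phi I (a - f) + Phi I b + Phi I c - SS (lam.erase f))) := by
  have e1 : ∑ L ∈ ar lam, Phi L a =
      ∑ f ∈ lam.toFinset, ∑ I ∈ ar (lam.erase f), (phi f a + Phi I (a - f)) :=
    (sum_first lam hlam (fun f I => phi f a + Phi I (a - f)) (fun L => Phi L a)
      (fun f I => rfl)).symm
  have e2 : ∀ m : ℕ, (∀ f ∈ lam, m + f ≤ lam.sum) → ∑ L ∈ ar lam, Phi L m =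
      ∑ f ∈ lam.toFinset, ∑ I ∈ ar (lam.erase f), Phi I m := by
    intro m hm
    rw [← sum_last lam hlam (fun f I => Phi (I ++ [f]) m) (fun L => Phi L m) (fun f I => rfl)]
    apply sum_congr rfl
    intro f hf
    apply sum_congr rfl
    intro I hI
    rw [Multiset.mem_toFinset] at hf
    rw [mem_ar] at hI
    have h1 := hm f hf
    have h2 := sum_erase hf
    have h3 := sum_eq_of_ar hI
    rw [Phi_append, show m - I.sum = 0 by omega, Phi_zero, add_zero]
  have e3 : ∑ L ∈ ar lam, SS lam =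
      ∑ f ∈ lam.toFinset, ∑ I ∈ ar (lam.erase f), SS lam :=
    (sum_first lam hlam (fun f I => SS lam) (fun L => SS lam) (fun f I => rfl)).symm
  unfold UU
  rw [sum_sub_distrib, sum_add_distrib, sum_add_distrib, e1, e2 b hb, e2 c hc, e3,
    ← sum_add_distrib, ← sum_add_distrib, ← sum_sub_distrib]
  apply sum_congr rfl
  intro f hf
  rw [Multiset.mem_toFinset] at hf
  rw [← sum_add_distrib, ← sum_add_distrib, ← sum_sub_distrib]
  apply sum_congr rfl
  intro I hI
  rw [SS_erase hf]
  ring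

lemma Phi_add_reverse (L : List ℕ) (b : ℕ) (hb : b ≤ L.sum) :
    Phi L L.sum ≤ Phi L b + Phi L.reverse (L.sum - b) := by
  induction L generalizing b with
  | nil => simp
  | cons h t ih =>
    rw [List.sum_cons] at hb ⊢
    rw [List.reverse_cons, Phi_append, Phi_cons, Phi_cons, phi_of_ge (by omega : h ≤ h + t.sum),
      Nat.add_sub_cancel_left, List.sum_reverse]
    rcases le_or_gt h b with hbh | hbh
    · have := ih (b - h) (by omega)
      rw [phi_of_ge hbh, show h + t.sum - b = t.sum - (b - h) by omega,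
        show t.sum - (b - h) - t.sum = 0 by omega, Phi_zero]
      linarith
    · rw [show b - h = 0 by omega, Phi_zero,
        show h + t.sum - b - t.sum = h - b by omega]
      have e1 : Phi t.reverse (h + t.sum - b) = Phi t t.sum := by
        rw [Phi_total _ (by rw [List.sum_reverse]; omega), Phi_total t le_rfl]
        congr 1
        exact Multiset.coe_eq_coe.2 (List.reverse_perm t)
      have e2 : Phi [h] (h - b) = phi h (h - b) := by simp [Phi_cons]
      rw [e1, e2]
      have h1 := two_phi_of_le (h := h) (r := b) hbh.le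
      have h2 := two_phi_of_le (h := h) (r := h - b) (by omega)
      have h3 := two_phi_self h
      rw [Nat.cast_sub hbh.le] at h2
      have h4 : (0:ℤ) ≤ b * (h - b) := by
        apply mul_nonneg (by positivity)
        have : (b:ℤ) ≤ h := by exact_mod_cast hbh.le
        linarith
      nlinarith

/-- the term of the recursion with a block of size `a + 1` -/
lemma TH_nonneg (mu : Multiset ℕ) (b c : ℕ) (h : b + c = mu.sum) :
    0 ≤ ∑ I ∈ ar mu, (Phi I b + Phi I c - SS mu) := by
  have e : ∑ I ∈ ar mu, (Phi I b + Phi I c - SS mu) =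
      ∑ I ∈ ar mu, (Phi I b + Phi I.reverse c - SS mu) := by
    rw [sum_sub_distrib, sum_sub_distrib, sum_add_distrib, sum_add_distrib,
      sum_ar_reverse mu (fun I => Phi I c)]
  rw [e]
  apply sum_nonneg
  intro I hI
  rw [mem_ar] at hI
  have h1 := sum_eq_of_ar hI
  have h2 := Phi_add_reverse I b (by omega)
  rw [Phi_sum, hI, show I.sum - b = c by omega] at h2
  linarith

/-- the insertion form -/
lemma UU_insert (J : Multiset ℕ) (H a b c : ℕ) :
    ((H ::ₘ J).count H : ℤ) * UU (H ::ₘ J) a b c =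
      ∑ x ∈ ar2 J, (Phi (x.1 ++ H :: x.2) a + Phi (x.1 ++ H :: x.2) b +
        Phi (x.1 ++ H :: x.2) c - SS (H ::ₘ J)) := by
  unfold UU
  rw [← sum_ar2_insert J H (fun L => Phi L a + Phi L b + Phi L c - SS (H ::ₘ J))]

lemma Phi_ins (P : List ℕ) (H : ℕ) (Q : List ℕ) (m : ℕ) (hm : m ≤ P.sum + H) :
    Phi (P ++ H :: Q) m = Phi P m + phi H (m - P.sum) := by
  rw [Phi_append, Phi_cons, show m - P.sum - H = 0 by omega, Phi_zero, add_zero]

lemma Phi_mono_succ (P : List ℕ) (v : ℕ) : Phi P v ≤ Phi P (v + 1) := Phi_mono P (Nat.le_succ v)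

/-- the step -/
lemma UU_step (J : Multiset ℕ) (H a v c : ℕ) (ha : a ≤ H) (hv : v ≤ H) (hc : c ≤ H)
    (hs : a + v + c + 1 = H + J.sum) :
    ((H ::ₘ J).count H : ℤ) * UU (H ::ₘ J) a v c ≤
      (((H + 1) ::ₘ J).count (H + 1) : ℤ) * UU ((H + 1) ::ₘ J) a (v + 1) c := by
  rw [UU_insert, UU_insert, ← sub_nonneg, ← sum_sub_distrib]
  -- termwise bound
  have hterm : ∀ x ∈ ar2 J,
      (((a - x.1.sum : ℕ) : ℤ) + ((c - x.1.sum : ℕ) : ℤ) - (if v + 1 ≤ x.1.sum then (H:ℤ) else 0)) ≤
      (Phi (x.1 ++ (H + 1) :: x.2) a + Phi (x.1 ++ (H + 1) :: x.2) (v + 1) +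
        Phi (x.1 ++ (H + 1) :: x.2) c - SS ((H + 1) ::ₘ J)) -
      (Phi (x.1 ++ H :: x.2) a + Phi (x.1 ++ H :: x.2) v +
        Phi (x.1 ++ H :: x.2) c - SS (H ::ₘ J)) := by
    rintro ⟨P, Q⟩ hx
    simp only
    rw [SS_cons, SS_cons, Phi_ins P (H+1) Q a (by omega), Phi_ins P (H+1) Q (v+1) (by omega),
      Phi_ins P (H+1) Q c (by omega), Phi_ins P H Q a (by omega), Phi_ins P H Q v (by omega),
      Phi_ins P H Q c (by omega), phi_succ_left (by omega : a - P.sum ≤ H),
      phi_succ_left (by omega : c - P.sum ≤ H), phi_succ_succ (le_refl H)]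
    split_ifs with h1
    · rw [show v + 1 - P.sum = 0 by omega, show v - P.sum = 0 by omega, phi_zero, phi_zero]
      have := Phi_mono_succ P v
      linarith
    · have e : v + 1 - P.sum = (v - P.sum) + 1 := by omega
      rw [e, phi_succ_succ (by omega : v - P.sum ≤ H), Phi_total P (by omega : P.sum ≤ v + 1),
        Phi_total P (by omega : P.sum ≤ v)]
      linarith
  refine le_trans ?_ (sum_le_sum hterm)
  rw [sum_sub_distrib]
  -- swap the negative part
  have e1 : ∑ x ∈ ar2 J, (if v + 1 ≤ x.1.sum then (H:ℤ) else 0) =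
      ∑ x ∈ ar2 J, (if x.1.sum + v + 1 ≤ J.sum then (H:ℤ) else 0) := by
    rw [sum_ar2_swap J (fun x => if v + 1 ≤ x.1.sum then (H:ℤ) else 0)]
    apply sum_congr rfl
    rintro ⟨P, Q⟩ hx
    rw [mem_ar2] at hx
    have := sum_of_ar2 hx
    simp only at this ⊢
    congr 1
    apply propext
    constructor <;> intro h <;> omega
  rw [e1]
  rcases lt_or_ge v J.sum with hvk | hvk
  · obtain ⟨y, hy⟩ : ∃ y, J.sum = y + v + 1 := ⟨J.sum - v - 1, by omega⟩
    have e2 : ∑ x ∈ ar2 J, (if x.1.sum + v + 1 ≤ J.sum then (H:ℤ) else 0) =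
        ∑ x ∈ (ar2 J).filter (fun x => x.1.sum ≤ y), (H:ℤ) := by
      rw [sum_filter]
      apply sum_congr rfl
      intro x hx
      congr 1
      apply propext
      constructor <;> intro h <;> omega
    have e3 : ∑ x ∈ (ar2 J).filter (fun x => x.1.sum ≤ y),
        (((a - x.1.sum : ℕ) : ℤ) + ((c - x.1.sum : ℕ) : ℤ)) ≤
        ∑ x ∈ ar2 J, (((a - x.1.sum : ℕ) : ℤ) + ((c - x.1.sum : ℕ) : ℤ)) := by
      apply sum_le_sum_of_subset_of_nonneg (filter_subset _ _)
      intros; positivity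
    have e4 := sum_bdry_nonneg J y (by omega)
    have e5 : ∑ x ∈ (ar2 J).filter (fun x => x.1.sum ≤ y), ((y : ℤ) - 2 * (x.1.sum : ℕ)) ≤
        ∑ x ∈ (ar2 J).filter (fun x => x.1.sum ≤ y),
        ((((a - x.1.sum : ℕ) : ℤ) + ((c - x.1.sum : ℕ) : ℤ)) - (H:ℤ)) := by
      apply sum_le_sum
      intro x hx
      have h1 : (a : ℤ) - (x.1.sum : ℕ) ≤ ((a - x.1.sum : ℕ) : ℤ) := by omega
      have h2 : (c : ℤ) - (x.1.sum : ℕ) ≤ ((c - x.1.sum : ℕ) : ℤ) := by omega
      have h3 : (H : ℤ) = a + c - y := by omega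
      rw [h3]
      linarith
    have e6 : ∑ x ∈ (ar2 J).filter (fun x => x.1.sum ≤ y),
        ((((a - x.1.sum : ℕ) : ℤ) + ((c - x.1.sum : ℕ) : ℤ)) - (H:ℤ)) =
        ∑ x ∈ (ar2 J).filter (fun x => x.1.sum ≤ y),
          (((a - x.1.sum : ℕ) : ℤ) + ((c - x.1.sum : ℕ) : ℤ)) -
        ∑ x ∈ (ar2 J).filter (fun x => x.1.sum ≤ y), (H:ℤ) := sum_sub_distrib _ _
    rw [e2]
    linarith
  · have e2 : ∑ x ∈ ar2 J, (if x.1.sum + v + 1 ≤ J.sum then (H:ℤ) else 0) = 0 := by
      apply sum_eq_zero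
      intro x hx
      rw [if_neg (by omega)]
    rw [e2, sub_zero]
    apply sum_nonneg
    intros; positivity

theorem UU_nonneg_aux (n : ℕ) : ∀ (lam : Multiset ℕ) (a b c : ℕ), lam.sum = n →
    (∀ x ∈ lam, 1 ≤ x) → a + b + c + 1 = n → 0 ≤ UU lam a b c := by
  induction n using Nat.strong_induction_on with
  | _ n ih =>
  -- reduce to the ordered case
  suffices H : ∀ (lam : Multiset ℕ) (a b c : ℕ), lam.sum = n → (∀ x ∈ lam, 1 ≤ x) →
      a + b + c + 1 = n → b ≤ a → c ≤ b → 0 ≤ UU lam a b c by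
    intro lam a b c h1 h2 h3
    rcases le_total b a with hab | hab <;> rcases le_total c b with hbc | hbc <;>
      rcases le_total c a with hac | hac
    · exact H lam a b c h1 h2 (by omega) (by omega) (by omega)
    · exact H lam a b c h1 h2 (by omega) (by omega) (by omega)
    · rw [UU_comm23]
      exact H lam a c b h1 h2 (by omega) (by omega) (by omega)
    · rw [UU_comm23, UU_comm12]
      exact H lam c a b h1 h2 (by omega) (by omega) (by omega)
    · rw [UU_comm12]
      exact H lam b a c h1 h2 (by omega) (by omega) (by omega)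
    · rw [UU_comm12, UU_comm23]
      exact H lam b c a h1 h2 (by omega) (by omega) (by omega)
    · rw [UU_comm12, UU_comm23, UU_comm12]
      exact H lam c b a h1 h2 (by omega) (by omega) (by omega)
    · rw [UU_comm12, UU_comm23, UU_comm12]
      exact H lam c b a h1 h2 (by omega) (by omega) (by omega)
  intro lam a b c hsum hpos habc hba hcb
  have hlam : lam ≠ 0 := by rintro rfl; simp at hsum; omega
  obtain ⟨M, hM, hmax⟩ := exists_max lam hlam
  rcases le_or_gt M (a + 1) with hMa | hMa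
  · -- recursion
    rw [UU_rec lam hlam a b c (fun f hf => by have := hmax f hf; omega)
      (fun f hf => by have := hmax f hf; omega)]
    apply sum_nonneg
    intro f hf
    rw [Multiset.mem_toFinset] at hf
    have hf1 := hpos f hf
    have hf2 := hmax f hf
    have hs := sum_erase hf
    rcases le_or_gt f a with hfa | hfa
    · rw [phi_of_ge hfa, sub_self]
      simp only [zero_add]
      refine ih (n - f) (by omega) (lam.erase f) (a - f) b c (by omega) ?_ (by omega)
      intro x hx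
      exact hpos x (Multiset.mem_of_mem_erase hx)
    · have hfa' : f = a + 1 := by omega
      have e1 : phi f a - phi f f = 0 := by
        have h1 := two_phi_of_le (h := f) (r := a) (by omega)
        have h2 := two_phi_self f
        have : (f : ℤ) = a + 1 := by exact_mod_cast hfa'
        rw [this] at h1 h2
        nlinarith
      have e2 : a - f = 0 := by omega
      rw [e1, e2]
      simp only [Phi_zero, zero_add]
      exact TH_nonneg _ b c (by omega)
  · -- huge block
    obtain ⟨H, rfl⟩ : ∃ H, M = H + 1 := ⟨M - 1, by omega⟩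
    obtain ⟨J, hJ⟩ := Multiset.exists_cons_of_mem hM
    subst hJ
    rw [Multiset.sum_cons] at hsum
    have hb : 1 ≤ b := by
      have : J.sum + H + 1 = a + b + c + 1 := by omega
      have h2 : 0 ≤ J.sum := Nat.zero_le _
      omega
    obtain ⟨v, rfl⟩ : ∃ v, b = v + 1 := ⟨b - 1, by omega⟩
    have hstep := UU_step J H a v c (by omega) (by omega) (by omega) (by omega)
    have hih : 0 ≤ UU (H ::ₘ J) a v c := by
      refine ih (n - 1) (by omega) (H ::ₘ J) a v c (by rw [Multiset.sum_cons]; omega) ?_ (by omega)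
      intro x hx
      rw [Multiset.mem_cons] at hx
      rcases hx with rfl | hx
      · omega
      · exact hpos x (Multiset.mem_cons_of_mem hx)
    have h1 : 0 ≤ ((H ::ₘ J).count H : ℤ) * UU (H ::ₘ J) a v c :=
      mul_nonneg (Int.natCast_nonneg _) hih
    have h2 : (0:ℤ) < (((H + 1) ::ₘ J).count (H + 1) : ℤ) := by
      exact_mod_cast count_cons_pos J (H + 1)
    exact nonneg_of_mul_nonneg_right (le_trans h1 hstep) h2

theorem UU_nonneg (lam : Multiset ℕ) (a b c : ℕ) (hpos : ∀ x ∈ lam, 1 ≤ x)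
    (h : a + b + c + 1 = lam.sum) : 0 ≤ UU lam a b c :=
  UU_nonneg_aux lam.sum lam a b c rfl hpos h

end Pool.Agent.W260.Theta
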