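import Pool.Agent.W260.Theta.I1

/-!
Auxiliary sums for the second inequality.
-/

set_option autoImplicit false

namespace Pool.Agent.W260.Theta

open Finset

/-- weight of the first block -/
def g (h : ℕ) : ℚ := (h : ℚ) / ((h : ℚ) - 1)

lemma cast_ge_two {h : ℕ} (hh : 2 ≤ h) : (2 : ℚ) ≤ h := by exact_mod_cast hh

lemma g_mul {h : ℕ} (hh : 2 ≤ h) : g h * ((h : ℚ) - 1) = h := by
  have := cast_ge_two hh
  unfold g
  rw [div_mul_cancel₀]
  linarith

lemma g_eq {h : ℕ} (hh : 2 ≤ h) : g h = 1 + 1 / ((h : ℚ) - 1) := by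
  have := cast_ge_two hh
  unfold g
  have h1 : (h : ℚ) - 1 ≠ 0 := by linarith
  field_simp
  ring

lemma g_ge_one {h : ℕ} (hh : 2 ≤ h) : 1 ≤ g h := by
  rw [g_eq hh]
  have := cast_ge_two hh
  have : 0 ≤ 1 / ((h : ℚ) - 1) := by apply div_nonneg <;> linarith
  linarith

lemma g_nonneg {h : ℕ} (hh : 2 ≤ h) : 0 ≤ g h := le_trans zero_le_one (g_ge_one hh)

lemma part_of_cov {J : Multiset ℕ} (hJ : ∀ x ∈ J, 2 ≤ x) {P : List ℕ} {q : ℕ} {Q : List ℕ}
    (h : (P : Multiset ℕ) + {q} + (Q : Multiset ℕ) = J) : 2 ≤ q := by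
  apply hJ
  rw [← h]; simp

lemma part_of_cov5 {J : Multiset ℕ} (hJ : ∀ x ∈ J, 2 ≤ x) {P : List ℕ} {f : ℕ} {P2 : List ℕ}
    {q : ℕ} {Q : List ℕ}
    (h : (P : Multiset ℕ) + {f} + (P2 : Multiset ℕ) + {q} + (Q : Multiset ℕ) = J) :
    2 ≤ f ∧ 2 ≤ q := by
  constructor <;> apply hJ <;> rw [← h] <;> simp

/-- the pair term -/
def c5 (y : ℕ) (z : List ℕ × ℕ × List ℕ × ℕ × List ℕ) : ℚ :=
  (1 + ((y : ℚ) - ((z.1.sum : ℕ) + (z.2.1 : ℕ) + (z.2.2.1.sum : ℕ)))) * g z.2.1 -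
    (z.2.1 : ℚ) / ((z.2.2.2.1 : ℚ) - 1)

lemma c5_nonneg_of_le {J : Multiset ℕ} (hJ : ∀ x ∈ J, 2 ≤ x) {y : ℕ}
    {z : List ℕ × ℕ × List ℕ × ℕ × List ℕ} (hz : z ∈ cov5 J y) (hle : z.2.1 ≤ z.2.2.2.1) :
    0 ≤ c5 y z := by
  obtain ⟨P, f, P2, q, Q⟩ := z
  rw [mem_cov5] at hz
  obtain ⟨h1, h2, h3⟩ := hz
  simp only at h1 h2 h3 hle
  obtain ⟨hf, hq⟩ := part_of_cov5 hJ h1
  unfold c5
  simp only
  have ha : (0:ℚ) ≤ (y : ℚ) - ((P.sum : ℕ) + (f : ℕ) + (P2.sum : ℕ)) := by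
    have : ((P.sum + f + P2.sum : ℕ) : ℚ) ≤ y := by exact_mod_cast h2
    push_cast at this ⊢
    linarith
  have hf' := cast_ge_two hf
  have hq' := cast_ge_two hq
  have hfq : (f : ℚ) ≤ q := by exact_mod_cast hle
  have h4 : (f : ℚ) / ((q : ℚ) - 1) ≤ g f := by
    unfold g
    apply div_le_div_of_nonneg_left (by linarith) (by linarith) (by linarith)
  have h5 := g_nonneg hf
  nlinarith [mul_nonneg ha h5]

lemma pair_nonneg (J : Multiset ℕ) (hJ : ∀ x ∈ J, 2 ≤ x) (y : ℕ) :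
    0 ≤ ∑ z ∈ cov5 J y, c5 y z := by
  rw [← sum_filter_add_sum_filter_not (cov5 J y) (fun z => z.2.2.2.1 < z.2.1)]
  set S := (cov5 J y).filter (fun z => z.2.2.2.1 < z.2.1) with hS
  set T := (cov5 J y).filter (fun z => ¬ z.2.2.2.1 < z.2.1) with hT
  let io : (List ℕ × ℕ × List ℕ × ℕ × List ℕ) → (List ℕ × ℕ × List ℕ × ℕ × List ℕ) :=
    fun z => (z.1, z.2.2.2.1, z.2.2.1, z.2.1, z.2.2.2.2)
  have hmem : ∀ z ∈ S, io z ∈ T := by
    rintro ⟨P, f, P2, q, Q⟩ hz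
    rw [hS, mem_filter, mem_cov5] at hz
    obtain ⟨⟨h1, h2, h3⟩, h4⟩ := hz
    simp only at h1 h2 h3 h4
    rw [hT, mem_filter, mem_cov5]
    simp only [io]
    refine ⟨⟨?_, by omega, by omega⟩, by omega⟩
    rw [← h1]; abel
  have hinj : Set.InjOn io (S : Set _) := by
    rintro ⟨P, f, P2, q, Q⟩ _ ⟨P', f', P2', q', Q'⟩ _ h
    simp only [io, Prod.mk.injEq] at h
    obtain ⟨h1, h2, h3, h4, h5⟩ := h
    simp [h1, h2, h3, h4, h5]
  have h1 : ∑ z ∈ S, c5 y (io z) ≤ ∑ z ∈ T, c5 y z := by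
    rw [← sum_image (f := c5 y) hinj]
    apply sum_le_sum_of_subset_of_nonneg
    · intro z hz
      rw [mem_image] at hz
      obtain ⟨x, hx, rfl⟩ := hz
      exact hmem x hx
    · intro z hz _
      rw [hT, mem_filter] at hz
      exact c5_nonneg_of_le hJ hz.1 (not_lt.1 hz.2)
  have h2 : 0 ≤ ∑ z ∈ S, (c5 y z + c5 y (io z)) := by
    apply sum_nonneg
    rintro ⟨P, f, P2, q, Q⟩ hz
    rw [hS, mem_filter, mem_cov5] at hz
    obtain ⟨⟨h1, h2, h3⟩, h4⟩ := hz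
    simp only at h1 h2 h3 h4
    obtain ⟨hf, hq⟩ := part_of_cov5 hJ h1
    have hf' := cast_ge_two hf
    have hq' := cast_ge_two hq
    have hfq : (q : ℚ) ≤ f := by exact_mod_cast h4.le
    simp only [c5, io]
    set al : ℚ := (y : ℚ) - ((P.sum : ℕ) + (f : ℕ) + (P2.sum : ℕ)) with hal
    have ha : 0 ≤ al := by
      have : ((P.sum + f + P2.sum : ℕ) : ℚ) ≤ y := by exact_mod_cast h2
      rw [hal]
      push_cast at this ⊢
      linarith
    have e1 : (y : ℚ) - ((P.sum : ℕ) + (q : ℕ) + (P2.sum : ℕ)) = al + (f - q) := by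
      rw [hal]; ring
    rw [e1]
    have hgf : g f = f / ((f : ℚ) - 1) := rfl
    have hgq : g q = q / ((q : ℚ) - 1) := rfl
    rw [hgf, hgq]
    have hf1 : 0 < (f : ℚ) - 1 := by linarith
    have hq1 : 0 < (q : ℚ) - 1 := by linarith
    have e2 : (1 + al) * (f / ((f : ℚ) - 1)) - f / ((q : ℚ) - 1) +
        ((1 + (al + (f - q))) * (q / ((q : ℚ) - 1)) - q / ((f : ℚ) - 1)) =
        (((f : ℚ) - q) + al * f) / ((f : ℚ) - 1) + (al * q) / ((q : ℚ) - 1) + ((f : ℚ) - q) := by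
      field_simp
      ring
    rw [e2]
    have h5 : 0 ≤ (((f : ℚ) - q) + al * f) / ((f : ℚ) - 1) := by
      apply div_nonneg _ hf1.le
      have : 0 ≤ al * f := mul_nonneg ha (by linarith)
      linarith
    have h6 : 0 ≤ (al * q) / ((q : ℚ) - 1) := by
      apply div_nonneg _ hq1.le
      exact mul_nonneg ha (by linarith)
    linarith
  rw [sum_add_distrib] at h2
  linarith

/-- (B3) sum of the earlier blocks -/
lemma sum_cov5_block (J : Multiset ℕ) (y : ℕ) (Z : ℕ → ℚ) :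
    ∑ z ∈ cov5 J y, (z.2.1 : ℚ) * Z z.2.2.2.1 = ∑ x ∈ cov J y, ((x.1.sum : ℕ) : ℚ) * Z x.2.1 := by
  have hmaps : ∀ z ∈ cov5 J y, (z.1 ++ z.2.1 :: z.2.2.1, z.2.2.2.1, z.2.2.2.2) ∈ cov J y := by
    rintro ⟨P, f, P2, q, Q⟩ hz
    rw [mem_cov5] at hz
    obtain ⟨h1, h2, h3⟩ := hz
    simp only at h1 h2 h3
    rw [mem_cov]
    simp only [List.sum_append, List.sum_cons]
    refine ⟨?_, by omega, by omega⟩
    rw [coe_split, h1]
  rw [← sum_fiberwise_of_maps_to hmaps]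
  apply sum_congr rfl
  rintro ⟨P, q, Q⟩ hx
  rw [mem_cov] at hx
  obtain ⟨h1, h2, h3⟩ := hx
  simp only at h1 h2 h3 ⊢
  have e1 : (cov5 J y).filter (fun z => (z.1 ++ z.2.1 :: z.2.2.1, z.2.2.2.1, z.2.2.2.2) = (P, q, Q)) =
      (range P.length).image (fun i => (P.take i, P.getD i 0, P.drop (i + 1), q, Q)) := by
    ext ⟨P1, f, P2, q', Q'⟩
    rw [mem_filter, mem_cov5, mem_image]
    simp only [Prod.mk.injEq]
    constructor
    · rintro ⟨_, rfl, rfl, rfl⟩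
      refine ⟨P1.length, by simp, ?_, ?_, ?_, rfl, rfl⟩
      · simp
      · simp
      · simp
    · rintro ⟨i, hi, rfl, rfl, rfl, rfl, rfl⟩
      rw [mem_range] at hi
      have e : P.take i ++ P.getD i 0 :: P.drop (i + 1) = P := by
        rw [List.getD_eq_getElem _ _ hi, List.getElem_cons_drop, List.take_append_drop]
      have e' : (P.take i).sum + P.getD i 0 + (P.drop (i + 1)).sum = P.sum := by
        conv_rhs => rw [← e]
        rw [List.sum_append, List.sum_cons, add_assoc]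
      refine ⟨⟨?_, by omega, by omega⟩, e, rfl, rfl⟩
      rw [← coe_split, e, h1]
  rw [e1, sum_image]
  · simp only
    rw [← sum_mul]
    congr 1
    rw [← Nat.cast_sum]
    congr 1
    clear e1 hmaps h1 h2 h3
    induction P with
    | nil => simp
    | cons a t ih =>
      rw [List.length_cons, sum_range_succ', List.sum_cons]
      simp only [List.getD_cons_succ, List.getD_cons_zero]
      rw [ih, add_comm]
  · intro i hi j hj hij
    simp only [Prod.mk.injEq] at hij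
    have hi' := mem_range.1 hi
    have hj' := mem_range.1 hj
    have := congrArg List.length hij.1
    rw [List.length_take, List.length_take] at this
    omega

/-- offset of the position `y` in its block -/
def al (L : List ℕ) (y : ℕ) : ℚ := (y : ℚ) - ((spl y L).1.sum : ℕ)

lemma sum_cov_al (J : Multiset ℕ) (y : ℕ) (hy : y < J.sum) (F : ℚ → ℚ) :
    ∑ x ∈ cov J y, F ((y : ℚ) - (x.1.sum : ℕ)) = ∑ L ∈ ar J, F (al L y) := by
  rw [sum_ar_eq_sum_cov J y hy]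
  apply sum_congr rfl
  rintro ⟨P, q, Q⟩ hx
  rw [mem_cov] at hx
  unfold al
  rw [spl_unique _ _ _ _ hx.2.1 hx.2.2]

lemma al_add_al {J : Multiset ℕ} (hJ : ∀ x ∈ J, 2 ≤ x) (y : ℕ) (hy : y + 1 < J.sum)
    {L : List ℕ} (hL : (L : Multiset ℕ) = J) : 1 ≤ al L y + al L (y + 1) := by
  have hs := sum_eq_of_ar hL
  obtain ⟨e1, e2, e3⟩ := spl_spec L y (by omega)
  obtain ⟨e1', e2', e3'⟩ := spl_spec L (y + 1) (by omega)
  have hq : 2 ≤ (spl y L).2.1 := by
    apply hJ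
    have hmem : (spl y L).2.1 ∈ (spl y L).1 ++ (spl y L).2.1 :: (spl y L).2.2 := by simp
    rw [e1] at hmem
    rw [← hL]
    exact hmem
  unfold al
  have h0 : ((spl y L).1.sum : ℚ) ≤ y := by exact_mod_cast e2
  have h1 : ((spl (y+1) L).1.sum : ℚ) ≤ ((y + 1 : ℕ) : ℚ) := by exact_mod_cast e2'
  rcases Nat.lt_or_ge (spl y L).1.sum y with h | h
  · have : (((spl y L).1.sum + 1 : ℕ) : ℚ) ≤ y := by exact_mod_cast h
    push_cast at this h1 ⊢
    linarith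
  · have hu : spl (y + 1) L = spl y L := by
      have := spl_unique (spl y L).1 (spl y L).2.1 (spl y L).2.2 (y + 1) (by omega) (by omega)
      rw [e1] at this
      exact this
    rw [hu]
    have h5 : (spl y L).1.sum = y := le_antisymm e2 h
    rw [h5]
    push_cast
    linarith

/-- residual increments of `Phi` -/
lemma Phi_step (P : List ℕ) (q : ℕ) (Q : List ℕ) (v : ℕ) (h1 : P.sum ≤ v) (h2 : v < P.sum + q) :
    Phi (P ++ q :: Q) (v + 1) - Phi (P ++ q :: Q) v = (P.sum : ℤ) + q - v - 1 := by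
  rw [Phi_ins P q Q (v + 1) (by omega), Phi_ins P q Q v (by omega),
    Phi_total P (by omega : P.sum ≤ v + 1), Phi_total P h1]
  have e1 := two_phi_of_le (h := q) (r := v + 1 - P.sum) (by omega)
  have e2 := two_phi_of_le (h := q) (r := v - P.sum) (by omega)
  have e3 : ((v + 1 - P.sum : ℕ) : ℤ) = v + 1 - P.sum := by omega
  have e4 : ((v - P.sum : ℕ) : ℤ) = v - P.sum := by omega
  rw [e3] at e1
  rw [e4] at e2
  nlinarith

lemma sum_cov_swap (J : Multiset ℕ) (v y : ℕ) (h : J.sum = y + v + 1)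
    (F : List ℕ × ℕ × List ℕ → ℚ) :
    ∑ x ∈ cov J v, F x = ∑ x ∈ cov J y, F (x.2.2, x.2.1, x.1) := by
  refine Finset.sum_bij' (fun x _ => (x.2.2, x.2.1, x.1)) (fun x _ => (x.2.2, x.2.1, x.1))
    ?_ ?_ ?_ ?_ ?_
  · rintro ⟨P, f, Q⟩ hx
    rw [mem_cov] at hx ⊢
    obtain ⟨h1, h2, h3⟩ := hx
    have := sum_of_ar3 h1
    simp only at h1 h2 h3 this ⊢
    refine ⟨?_, by omega, by omega⟩
    rw [← h1]; abel
  · rintro ⟨P, f, Q⟩ hx
    rw [mem_cov] at hx ⊢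
    obtain ⟨h1, h2, h3⟩ := hx
    have := sum_of_ar3 h1
    simp only at h1 h2 h3 this ⊢
    refine ⟨?_, by omega, by omega⟩
    rw [← h1]; abel
  · intros; rfl
  · intros; rfl
  · intros; rfl

/-- sum of the residuals at `v + 1` = sum of the ages at `y + 1` -/
lemma sum_resid (J : Multiset ℕ) (v y : ℕ) (h : J.sum = y + v + 1) :
    ∑ L ∈ ar J, ((Phi L (v + 1) - Phi L v : ℤ) : ℚ) = ∑ x ∈ cov J y, ((y : ℚ) - (x.1.sum : ℕ)) := by
  rw [sum_ar_eq_sum_cov J v (by omega), sum_cov_swap J v y h]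
  apply sum_congr rfl
  rintro ⟨P, q, Q⟩ hx
  rw [mem_cov] at hx
  obtain ⟨h1, h2, h3⟩ := hx
  have h4 := sum_of_ar3 h1
  simp only at h1 h2 h3 h4 ⊢
  rw [Phi_step Q q P v (by omega) (by omega)]
  have : ((P.sum : ℕ) : ℚ) + q + (Q.sum : ℕ) = y + v + 1 := by
    have : P.sum + q + Q.sum = y + v + 1 := by omega
    exact_mod_cast this
  generalize P.sum = p at *
  generalize Q.sum = r at *
  push_cast
  linarith

end Pool.Agent.W260.Theta
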