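import Pool.Agent.W260.Theta.I2a

/-!
Second inequality: the recursion, the insertion formula, and the lower bound of a step.
-/

set_option autoImplicit false

namespace Pool.Agent.W260.Theta

open Finset

/-- the weighted sum over the arrangements -/
def WW (lam : Multiset ℕ) (a b c : ℕ) : ℚ :=
  ∑ L ∈ ar lam, g (L.headD 1) * (cc L a b c : ℚ)

lemma cc_comm12 (L : List ℕ) (a b c : ℕ) : cc L a b c = cc L b a c := by unfold cc; ring

lemma cc_comm23 (L : List ℕ) (a b c : ℕ) : cc L a b c = cc L a c b := by unfold cc; ring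

lemma WW_comm12 (lam : Multiset ℕ) (a b c : ℕ) : WW lam a b c = WW lam b a c := by
  unfold WW; apply sum_congr rfl; intros; rw [cc_comm12]

lemma WW_comm23 (lam : Multiset ℕ) (a b c : ℕ) : WW lam a b c = WW lam a c b := by
  unfold WW; apply sum_congr rfl; intros; rw [cc_comm23]

lemma phi_compl {h f a : ℕ} (hh : h ≤ a) (hf : f ≤ a) :
    phi f f - phi f (a - h) = phi h h - phi h (a - f) := by
  rcases le_or_gt f (a - h) with h1 | h1
  · rw [phi_of_ge h1, phi_of_ge (by omega : h ≤ a - f)]; ring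
  · have e1 := two_phi_of_le (h := f) (r := a - h) h1.le
    have e2 := two_phi_of_le (h := h) (r := a - f) (by omega)
    have e3 := two_phi_self f
    have e4 := two_phi_self h
    rw [Nat.cast_sub hh] at e1
    rw [Nat.cast_sub hf] at e2
    nlinarith

lemma Phi_second {h f a : ℕ} (hh : h ≤ a) (hf : f ≤ a) (nu : List ℕ) :
    Phi (h :: f :: nu) (h :: f :: nu).sum - Phi (h :: f :: nu) a =
      Phi (h :: nu) (h :: nu).sum - Phi (h :: nu) (a - f) := by
  rw [Phi_sum, Phi_sum, Phi_cons, Phi_cons, Phi_cons, phi_of_ge hh, ← Multiset.cons_coe,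
    ← Multiset.cons_coe, ← Multiset.cons_coe, SS_cons, SS_cons, SS_cons,
    show a - h - f = a - f - h by omega]
  have := phi_compl hh hf
  linarith

/-- recursion -/
lemma WW_rec (lam : Multiset ℕ) (hcard : 2 ≤ lam.card) (a b c : ℕ)
    (ha : ∀ f ∈ lam, f ≤ a)
    (hb : ∀ f ∈ lam, b + f ≤ lam.sum) (hc : ∀ f ∈ lam, c + f ≤ lam.sum) :
    WW lam a b c = ∑ f ∈ lam.toFinset, WW (lam.erase f) (a - f) b c := by
  have hlam : lam ≠ 0 := by rintro rfl; simp at hcard
  have hne : ∀ f ∈ lam, ∀ I ∈ ar (lam.erase f), ∃ h nu, I = h :: nu := by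
    intro f hf I hI
    rw [mem_ar] at hI
    have hc : I.length = (lam.erase f).card := by rw [← hI]; simp
    rw [Multiset.card_erase_of_mem hf] at hc
    cases I with
    | nil => simp at hc; omega
    | cons h nu => exact ⟨h, nu, rfl⟩
  have e1 : ∑ L ∈ ar lam, g (L.headD 1) *
      ((Phi L b + Phi L c - ((L.headD 1 : ℕ) - 1) : ℤ) : ℚ) =
      ∑ f ∈ lam.toFinset, ∑ I ∈ ar (lam.erase f), g (I.headD 1) *
      ((Phi I b + Phi I c - ((I.headD 1 : ℕ) - 1) : ℤ) : ℚ) := by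
    rw [← sum_last lam hlam (fun f I => g ((I ++ [f]).headD 1) *
      ((Phi (I ++ [f]) b + Phi (I ++ [f]) c - (((I ++ [f]).headD 1 : ℕ) - 1) : ℤ) : ℚ))
      (fun L => g (L.headD 1) * ((Phi L b + Phi L c - ((L.headD 1 : ℕ) - 1) : ℤ) : ℚ))
      (fun f I => rfl)]
    apply sum_congr rfl
    intro f hf
    rw [Multiset.mem_toFinset] at hf
    apply sum_congr rfl
    intro I hI
    obtain ⟨h, nu, hI'⟩ := hne f hf I hI
    rw [mem_ar] at hI
    have h1 := hb f hf
    have h1' := hc f hf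
    have h2 := sum_erase hf
    have h3 := sum_eq_of_ar hI
    have e : (I ++ [f]).headD 1 = I.headD 1 := by rw [hI']; rfl
    rw [e, Phi_append, Phi_append, show b - I.sum = 0 by omega, show c - I.sum = 0 by omega,
      Phi_zero, add_zero, add_zero]
  have e2 : ∑ L ∈ ar lam, g (L.headD 1) * ((Phi L L.sum - Phi L a : ℤ) : ℚ) =
      ∑ f ∈ lam.toFinset, ∑ I ∈ ar (lam.erase f), g (I.headD 1) *
      ((Phi I I.sum - Phi I (a - f) : ℤ) : ℚ) := by
    rw [← sum_second lam hcard (fun f I => g (I.headD 1) *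
      ((Phi (I.headD 0 :: f :: I.tail) (I.headD 0 :: f :: I.tail).sum -
        Phi (I.headD 0 :: f :: I.tail) a : ℤ) : ℚ))
      (fun L => g (L.headD 1) * ((Phi L L.sum - Phi L a : ℤ) : ℚ))
      (fun f h I => rfl)]
    apply sum_congr rfl
    intro f hf
    rw [Multiset.mem_toFinset] at hf
    apply sum_congr rfl
    intro I hI
    obtain ⟨h, nu, hI'⟩ := hne f hf I hI
    rw [mem_ar] at hI
    have hh : h ∈ lam := by
      apply Multiset.mem_of_mem_erase (a := h) (b := f)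
      rw [← hI, hI']; simp
    subst hI'
    simp only [List.headD_cons, List.tail_cons]
    rw [Phi_second (ha h hh) (ha f hf)]
  have e3 : WW lam a b c = ∑ L ∈ ar lam, g (L.headD 1) *
      ((Phi L b + Phi L c - ((L.headD 1 : ℕ) - 1) : ℤ) : ℚ) -
      ∑ L ∈ ar lam, g (L.headD 1) * ((Phi L L.sum - Phi L a : ℤ) : ℚ) := by
    unfold WW
    rw [← sum_sub_distrib]
    apply sum_congr rfl
    intro L _
    unfold cc
    push_cast
    ring
  rw [e3, e1, e2, ← sum_sub_distrib]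
  apply sum_congr rfl
  intro f _
  unfold WW
  rw [← sum_sub_distrib]
  apply sum_congr rfl
  intro L _
  unfold cc
  push_cast
  ring

/-- insertion formula -/
lemma WW_insert (J : Multiset ℕ) (H a b c : ℕ) :
    ((H ::ₘ J).count H : ℚ) * WW (H ::ₘ J) a b c =
      ∑ L ∈ ar J, g H * (cc (H :: L) a b c : ℚ) +
      ∑ x ∈ ar3 J, g x.2.1 * (cc (x.2.1 :: x.1 ++ H :: x.2.2) a b c : ℚ) := by
  unfold WW
  rw [← sum_ar2_insert J H (fun L => g (L.headD 1) * (cc L a b c : ℚ)), sum_ar2_eq]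
  rfl

/-- explicit value, `H` first -/
def q0 (J : Multiset ℕ) (H a b c : ℕ) : ℤ :=
  phi H a + phi H b + phi H c - phi H H - SS J - ((H : ℤ) - 1)

lemma cc_first {J : Multiset ℕ} {H a b c : ℕ} {L : List ℕ} (hL : (L : Multiset ℕ) = J)
    (ha : a ≤ H) (hb : b ≤ H) (hc : c ≤ H) : cc (H :: L) a b c = q0 J H a b c := by
  unfold cc q0
  rw [Phi_sum, ← Multiset.cons_coe, SS_cons, hL, Phi_cons, Phi_cons, Phi_cons,
    show a - H = 0 by omega, show b - H = 0 by omega, show c - H = 0 by omega]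
  simp only [Phi_zero, List.headD_cons]
  ring

/-- explicit value, `f` first -/
lemma cc_other {J : Multiset ℕ} {H a b c : ℕ} {P : List ℕ} {f : ℕ} {Q : List ℕ}
    (hJ : (P : Multiset ℕ) + {f} + (Q : Multiset ℕ) = J)
    (ha : a ≤ H) (hb : b ≤ H) (hc : c ≤ H) :
    cc (f :: P ++ H :: Q) a b c =
      (Phi (f :: P) a + phi H (a - (f + P.sum))) + (Phi (f :: P) b + phi H (b - (f + P.sum))) +
      (Phi (f :: P) c + phi H (c - (f + P.sum))) - phi H H - SS J - ((f : ℤ) - 1) := by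
  unfold cc
  have e1 : SS (((f :: P ++ H :: Q : List ℕ) : Multiset ℕ)) = phi H H + SS J := by
    rw [coe_split, ← hJ, ← Multiset.cons_coe, SS_add, SS_add, SS_add, SS_add, SS_cons]
    simp only [SS, Multiset.map_singleton, Multiset.sum_singleton]
    ring
  rw [Phi_sum, e1, Phi_ins (f :: P) H Q a (by omega), Phi_ins (f :: P) H Q b (by omega),
    Phi_ins (f :: P) H Q c (by omega)]
  simp only [List.sum_cons, List.cons_append, List.headD_cons]
  ring

lemma q0_succ (J : Multiset ℕ) (H u v w : ℕ) (hu : u ≤ H) (hv : v ≤ H) (hw : w ≤ H) :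
    q0 J (H + 1) u (v + 1) w = q0 J H u v w + (u + w - 1) := by
  unfold q0
  rw [phi_succ_left hu, phi_succ_left hw, phi_succ_succ hv, phi_succ_succ le_rfl]
  push_cast
  ring

lemma q0_le (J : Multiset ℕ) (H u v w : ℕ) : q0 J H u v w ≤ ((H : ℤ) - 1) ^ 2 := by
  unfold q0
  have h1 := phi_le_self H u
  have h2 := phi_le_self H v
  have h3 := phi_le_self H w
  have h4 := two_phi_self H
  have h5 := SS_nonneg J
  nlinarith

lemma q0_step (J : Multiset ℕ) (H u v w : ℕ) (hH : 2 ≤ H) (hu : u ≤ H) (hv : v ≤ H) (hw : w ≤ H) :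
    ((u : ℚ) + w - 1) + ((u : ℚ) + w - 1 - (H - 1)) / H ≤
      g (H + 1) * (q0 J (H + 1) u (v + 1) w : ℚ) - g H * (q0 J H u v w : ℚ) := by
  rw [q0_succ J H u v w hu hv hw]
  have h1 : (q0 J H u v w : ℚ) ≤ ((H : ℚ) - 1) ^ 2 := by exact_mod_cast q0_le J H u v w
  have h2 := cast_ge_two hH
  set q : ℚ := (q0 J H u v w : ℚ) with hq
  have e1 : g (H + 1) = ((H : ℚ) + 1) / H := by
    unfold g; push_cast; rw [add_sub_cancel_right]
  have e2 : g H = (H : ℚ) / ((H : ℚ) - 1) := rfl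
  have e3 : ((q0 J H u v w + ((u : ℤ) + w - 1) : ℤ) : ℚ) = q + (u + w - 1) := by
    rw [hq]; push_cast; ring
  rw [e3, e1, e2]
  have h3 : (0 : ℚ) < H := by linarith
  have h4 : (0 : ℚ) < (H : ℚ) - 1 := by linarith
  have e4 : ((H : ℚ) + 1) / H * (q + (u + w - 1)) - (H : ℚ) / ((H : ℚ) - 1) * q -
      (((u : ℚ) + w - 1) + ((u : ℚ) + w - 1 - (H - 1)) / H) =
      ((((H : ℚ) - 1) ^ 2 - q)) / (H * ((H : ℚ) - 1)) := by
    field_simp
    ring
  have h5 : 0 ≤ ((((H : ℚ) - 1) ^ 2 - q)) / (H * ((H : ℚ) - 1)) := by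
    apply div_nonneg (by linarith)
    positivity
  linarith

/-- the term of a step for the arrangements with `f` first -/
def dl (H u v w : ℕ) (x : List ℕ × ℕ × List ℕ) : ℚ :=
  ((u - (x.2.1 + x.1.sum) : ℕ) : ℚ) + ((w - (x.2.1 + x.1.sum) : ℕ) : ℚ) -
    (if v + 1 ≤ x.2.1 + x.1.sum then
      (H : ℚ) - ((Phi (x.2.1 :: x.1) (v + 1) - Phi (x.2.1 :: x.1) v : ℤ) : ℚ) else 0)

lemma cc_other_step {J : Multiset ℕ} {H u v w : ℕ} {x : List ℕ × ℕ × List ℕ} (hx : x ∈ ar3 J)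
    (hu : u ≤ H) (hv : v ≤ H) (hw : w ≤ H) :
    (cc (x.2.1 :: x.1 ++ (H + 1) :: x.2.2) u (v + 1) w : ℚ) -
      (cc (x.2.1 :: x.1 ++ H :: x.2.2) u v w : ℚ) = dl H u v w x := by
  obtain ⟨P, f, Q⟩ := x
  rw [mem_ar3] at hx
  simp only at hx ⊢
  rw [cc_other hx (by omega : u ≤ H + 1) (by omega : v + 1 ≤ H + 1) (by omega : w ≤ H + 1),
    cc_other hx hu hv hw]
  unfold dl
  simp only
  rw [phi_succ_left (by omega : u - (f + P.sum) ≤ H), phi_succ_left (by omega : w - (f + P.sum) ≤ H),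
    phi_succ_succ (le_refl H)]
  split_ifs with h1
  · rw [show v + 1 - (f + P.sum) = 0 by omega, show v - (f + P.sum) = 0 by omega, phi_zero, phi_zero]
    push_cast
    ring
  · have e : v + 1 - (f + P.sum) = (v - (f + P.sum)) + 1 := by omega
    rw [e, phi_succ_succ (by omega : v - (f + P.sum) ≤ H),
      Phi_total (f :: P) (by simp; omega : (f :: P).sum ≤ v + 1),
      Phi_total (f :: P) (by simp; omega : (f :: P).sum ≤ v)]
    push_cast
    ring

/-- exact step -/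
lemma WW_step (J : Multiset ℕ) (H u v w : ℕ) (hH : 2 ≤ H) (hu : u ≤ H) (hv : v ≤ H) (hw : w ≤ H) :
    ((ar J).card : ℚ) * (((u : ℚ) + w - 1) + ((u : ℚ) + w - 1 - (H - 1)) / H) +
      ∑ x ∈ ar3 J, g x.2.1 * dl H u v w x ≤
    (((H + 1) ::ₘ J).count (H + 1) : ℚ) * WW ((H + 1) ::ₘ J) u (v + 1) w -
      ((H ::ₘ J).count H : ℚ) * WW (H ::ₘ J) u v w := by
  rw [WW_insert, WW_insert]
  have e1 : ∑ L ∈ ar J, g (H + 1) * (cc ((H + 1) :: L) u (v + 1) w : ℚ) =
      ((ar J).card : ℚ) * (g (H + 1) * (q0 J (H + 1) u (v + 1) w : ℚ)) := by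
    rw [← nsmul_eq_mul, ← sum_const]
    apply sum_congr rfl
    intro L hL
    rw [mem_ar] at hL
    rw [cc_first hL (by omega) (by omega) (by omega)]
  have e2 : ∑ L ∈ ar J, g H * (cc (H :: L) u v w : ℚ) =
      ((ar J).card : ℚ) * (g H * (q0 J H u v w : ℚ)) := by
    rw [← nsmul_eq_mul, ← sum_const]
    apply sum_congr rfl
    intro L hL
    rw [mem_ar] at hL
    rw [cc_first hL (by omega) (by omega) (by omega)]
  have e3 : ∑ x ∈ ar3 J, g x.2.1 * dl H u v w x =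
      ∑ x ∈ ar3 J, g x.2.1 * (cc (x.2.1 :: x.1 ++ (H + 1) :: x.2.2) u (v + 1) w : ℚ) -
      ∑ x ∈ ar3 J, g x.2.1 * (cc (x.2.1 :: x.1 ++ H :: x.2.2) u v w : ℚ) := by
    rw [← sum_sub_distrib]
    apply sum_congr rfl
    intro x hx
    rw [← mul_sub, cc_other_step hx hu hv hw]
  rw [e1, e2, e3]
  have h1 := q0_step J H u v w hH hu hv hw
  have h2 : (0 : ℚ) ≤ ((ar J).card : ℚ) := by positivity
  have h3 := mul_le_mul_of_nonneg_left h1 h2
  linarith

end Pool.Agent.W260.Theta
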