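import Pool.Agent.W260.Theta.I2b

/-!
Second inequality: lower bound of a step by a sum over the covering blocks.
-/

set_option autoImplicit false

namespace Pool.Agent.W260.Theta

open Finset

lemma split_le {B : Type*} [AddCommMonoid B] (J : Multiset ℕ) (y : ℕ)
    (F : List ℕ × ℕ × List ℕ → B) :
    ∑ x ∈ (ar3 J).filter (fun x => x.1.sum ≤ y), F x =
      ∑ x ∈ (ar3 J).filter (fun x => x.1.sum + x.2.1 ≤ y), F x + ∑ x ∈ cov J y, F x := by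
  rw [← sum_filter_add_sum_filter_not ((ar3 J).filter (fun x => x.1.sum ≤ y))
    (fun x => x.1.sum + x.2.1 ≤ y)]
  congr 1
  · apply sum_congr _ (fun _ _ => rfl)
    ext x
    simp only [mem_filter]
    constructor
    · rintro ⟨⟨h1, h2⟩, h3⟩; exact ⟨h1, h3⟩
    · rintro ⟨h1, h3⟩; exact ⟨⟨h1, by omega⟩, h3⟩
  · apply sum_congr _ (fun _ _ => rfl)
    ext x
    unfold cov
    simp only [mem_filter]
    constructor
    · rintro ⟨⟨h1, h2⟩, h3⟩; exact ⟨h1, h2, by omega⟩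
    · rintro ⟨h1, h2, h3⟩; exact ⟨⟨h1, h2⟩, by omega⟩

/-- the residual part -/
lemma S3_ge (J : Multiset ℕ) (hJ : ∀ x ∈ J, 2 ≤ x) (v y : ℕ) (h : J.sum = y + v + 1) :
    ∑ x ∈ cov J y, ((y : ℚ) - (x.1.sum : ℕ)) ≤
    ∑ x ∈ ar3 J, g x.2.1 * (if v + 1 ≤ x.2.1 + x.1.sum then
      ((Phi (x.2.1 :: x.1) (v + 1) - Phi (x.2.1 :: x.1) v : ℤ) : ℚ) else 0) := by
  rw [← sum_resid J v y h]
  have hpart : ∀ x ∈ ar3 J, 2 ≤ x.2.1 := by
    rintro ⟨P, f, Q⟩ hx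
    rw [mem_ar3] at hx
    exact part_of_cov hJ hx
  have hres : ∀ x : List ℕ × ℕ × List ℕ, (0:ℚ) ≤
      ((Phi (x.2.1 :: x.1) (v + 1) - Phi (x.2.1 :: x.1) v : ℤ) : ℚ) := by
    intro x
    have := Phi_mono_succ (x.2.1 :: x.1) v
    have : (0:ℤ) ≤ Phi (x.2.1 :: x.1) (v + 1) - Phi (x.2.1 :: x.1) v := by linarith
    exact_mod_cast this
  have e1 : ∑ L ∈ ar J, ((Phi L (v + 1) - Phi L v : ℤ) : ℚ) =
      ∑ x ∈ (ar3 J).filter (fun x => x.2.2 = []),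
        ((Phi (x.2.1 :: x.1) (v + 1) - Phi (x.2.1 :: x.1) v : ℤ) : ℚ) := by
    have hne : J ≠ 0 := by rintro rfl; simp at h
    refine Finset.sum_bij' (fun L _ => (L.tail, L.headD 0, [])) (fun x _ => x.2.1 :: x.1)
      ?_ ?_ ?_ ?_ ?_
    · intro L hL
      rw [mem_ar] at hL
      cases L with
      | nil => exact absurd hL.symm hne
      | cons f I =>
        rw [mem_filter, mem_ar3]
        simp only [List.tail_cons, List.headD_cons]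
        refine ⟨?_, trivial⟩
        rw [← hL, ← Multiset.cons_coe, ← Multiset.singleton_add]
        simp [add_comm]
    · rintro ⟨P, f, Q⟩ hx
      rw [mem_filter, mem_ar3] at hx
      obtain ⟨h1, h2⟩ := hx
      simp only at h1 h2 ⊢
      subst h2
      rw [mem_ar, ← h1, ← Multiset.cons_coe, ← Multiset.singleton_add]
      simp [add_comm]
    · intro L hL
      rw [mem_ar] at hL
      cases L with
      | nil => exact absurd hL.symm hne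
      | cons f I => rfl
    · rintro ⟨P, f, Q⟩ hx
      rw [mem_filter, mem_ar3] at hx
      obtain ⟨h1, h2⟩ := hx
      simp only at h1 h2 ⊢
      rw [h2]
      rfl
    · intro L hL
      rw [mem_ar] at hL
      cases L with
      | nil => exact absurd hL.symm hne
      | cons f I => rfl
  rw [e1]
  refine le_trans (sum_le_sum (g := fun x => g x.2.1 * (if v + 1 ≤ x.2.1 + x.1.sum then
      ((Phi (x.2.1 :: x.1) (v + 1) - Phi (x.2.1 :: x.1) v : ℤ) : ℚ) else 0)) ?_)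
    (sum_le_sum_of_subset_of_nonneg (filter_subset _ _) ?_)
  · rintro ⟨P, f, Q⟩ hx
    rw [mem_filter] at hx
    obtain ⟨h1, h2⟩ := hx
    have h3 := hpart _ h1
    have h4 := hres (P, f, Q)
    rw [mem_ar3] at h1
    have h5 := sum_of_ar3 h1
    simp only at h1 h2 h3 h4 h5 ⊢
    subst h2
    rw [List.sum_nil] at h5
    rw [if_pos (by omega)]
    have h6 := g_ge_one h3
    nlinarith
  · intro x hx _
    apply mul_nonneg (g_nonneg (hpart x hx))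
    split_ifs
    · exact hres x
    · exact le_rfl

/-- the kernel of the lower bound -/
def Kk (H u w y : ℕ) (x : List ℕ × ℕ × List ℕ) : ℚ :=
  1 + 2 * ((y : ℚ) - (x.1.sum : ℕ)) + ((y : ℚ) + 2) / H +
    g x.2.1 * (((u - (x.1.sum + x.2.1) : ℕ) : ℚ) + ((w - (x.1.sum + x.2.1) : ℕ) : ℚ)) -
    ((H : ℚ) - (x.1.sum : ℕ)) / ((x.2.1 : ℚ) - 1)

lemma step_lower (J : Multiset ℕ) (hJ : ∀ x ∈ J, 2 ≤ x) (H u v w y : ℕ)
    (hH : 2 ≤ H) (h : J.sum = y + v + 1) (hs : u + w = H + y + 2) :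
    ∑ x ∈ cov J y, Kk H u w y x ≤
    ((ar J).card : ℚ) * (((u : ℚ) + w - 1) + ((u : ℚ) + w - 1 - (H - 1)) / H) +
      ∑ x ∈ ar3 J, g x.2.1 * dl H u v w x := by
  have hpart : ∀ x ∈ ar3 J, 2 ≤ x.2.1 := by
    rintro ⟨P, f, Q⟩ hx
    rw [mem_ar3] at hx
    exact part_of_cov hJ hx
  have hH' := cast_ge_two hH
  have hsq : (u : ℚ) + w = H + y + 2 := by exact_mod_cast hs
  -- split dl
  have e0 : ∑ x ∈ ar3 J, g x.2.1 * dl H u v w x =
      ∑ x ∈ ar3 J, g x.2.1 * (((u - (x.2.1 + x.1.sum) : ℕ) : ℚ) + ((w - (x.2.1 + x.1.sum) : ℕ) : ℚ)) -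
      ∑ x ∈ ar3 J, g x.2.1 * (if v + 1 ≤ x.2.1 + x.1.sum then (H : ℚ) else 0) +
      ∑ x ∈ ar3 J, g x.2.1 * (if v + 1 ≤ x.2.1 + x.1.sum then
        ((Phi (x.2.1 :: x.1) (v + 1) - Phi (x.2.1 :: x.1) v : ℤ) : ℚ) else 0) := by
    rw [← sum_sub_distrib, ← sum_add_distrib]
    apply sum_congr rfl
    intro x _
    unfold dl
    split_ifs <;> ring
  -- S2
  have e2 : ∑ x ∈ ar3 J, g x.2.1 * (if v + 1 ≤ x.2.1 + x.1.sum then (H : ℚ) else 0) =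
      ∑ x ∈ (ar3 J).filter (fun x => x.1.sum ≤ y), g x.2.1 * (H : ℚ) := by
    rw [sum_ar3_swap J (fun x => g x.2.1 * (if v + 1 ≤ x.2.1 + x.1.sum then (H : ℚ) else 0)),
      sum_filter]
    apply sum_congr rfl
    rintro ⟨P, f, Q⟩ hx
    rw [mem_ar3] at hx
    have h1 := sum_of_ar3 hx
    simp only at h1 ⊢
    by_cases h2 : P.sum ≤ y
    · rw [if_pos (by omega), if_pos h2]
    · rw [if_neg (by omega), if_neg h2, mul_zero]
  -- S1
  have e1 : ∑ x ∈ (ar3 J).filter (fun x => x.1.sum ≤ y), g x.2.1 *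
      (((u - (x.2.1 + x.1.sum) : ℕ) : ℚ) + ((w - (x.2.1 + x.1.sum) : ℕ) : ℚ)) ≤
      ∑ x ∈ ar3 J, g x.2.1 * (((u - (x.2.1 + x.1.sum) : ℕ) : ℚ) +
        ((w - (x.2.1 + x.1.sum) : ℕ) : ℚ)) := by
    apply sum_le_sum_of_subset_of_nonneg (filter_subset _ _)
    intro x hx _
    exact mul_nonneg (g_nonneg (hpart x hx)) (by positivity)
  have e3 := S3_ge J hJ v y h
  rw [split_le] at e1 e2
  -- the part before the covering block
  have e4 : ∑ z ∈ cov5 J y, (((1 + ((y : ℚ) - ((z.1.sum : ℕ) + (z.2.1 : ℕ) + (z.2.2.1.sum : ℕ)))) *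
      g z.2.1) - (z.2.1 : ℚ)) ≤
      ∑ x ∈ (ar3 J).filter (fun x => x.1.sum + x.2.1 ≤ y), g x.2.1 *
      (((u - (x.2.1 + x.1.sum) : ℕ) : ℚ) + ((w - (x.2.1 + x.1.sum) : ℕ) : ℚ)) -
      ∑ x ∈ (ar3 J).filter (fun x => x.1.sum + x.2.1 ≤ y), g x.2.1 * (H : ℚ) := by
    rw [← sum_sub_distrib, sum_ar3_le J y (by omega)]
    have f1 : ∑ z ∈ cov5 J y, g z.2.1 * ((u : ℚ) + w - H - 2 * ((z.2.1 : ℕ) + (z.1.sum : ℕ))) ≤
        ∑ z ∈ cov5 J y, (g z.2.1 * (((u - (z.2.1 + z.1.sum) : ℕ) : ℚ) +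
          ((w - (z.2.1 + z.1.sum) : ℕ) : ℚ)) - g z.2.1 * (H : ℚ)) := by
      apply sum_le_sum
      rintro ⟨P, f, P2, q, Q⟩ hz
      rw [mem_cov5] at hz
      obtain ⟨h1, h2, h3⟩ := hz
      obtain ⟨hf, hq⟩ := part_of_cov5 hJ h1
      simp only at h1 h2 h3 ⊢
      have g1 : (u : ℚ) - ((f : ℚ) + (P.sum : ℕ)) ≤ ((u - (f + P.sum) : ℕ) : ℚ) := by
        have : (u : ℤ) - ((f : ℤ) + (P.sum : ℕ)) ≤ ((u - (f + P.sum) : ℕ) : ℤ) := by omega
        exact_mod_cast this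
      have g2 : (w : ℚ) - ((f : ℚ) + (P.sum : ℕ)) ≤ ((w - (f + P.sum) : ℕ) : ℚ) := by
        have : (w : ℤ) - ((f : ℤ) + (P.sum : ℕ)) ≤ ((w - (f + P.sum) : ℕ) : ℤ) := by omega
        exact_mod_cast this
      rw [← mul_sub]
      apply mul_le_mul_of_nonneg_left _ (g_nonneg hf)
      linarith
    refine le_trans ?_ f1
    -- symmetrise
    have f2 := sum_cov5_swap J y
      (fun z => g z.2.1 * ((u : ℚ) + w - H - 2 * ((z.2.1 : ℕ) + (z.1.sum : ℕ))))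
    simp only at f2
    have f3 : ∑ z ∈ cov5 J y, (((1 + ((y : ℚ) - ((z.1.sum : ℕ) + (z.2.1 : ℕ) +
        (z.2.2.1.sum : ℕ)))) * g z.2.1) - (z.2.1 : ℚ)) +
        ∑ z ∈ cov5 J y, (((1 + ((y : ℚ) - ((z.1.sum : ℕ) + (z.2.1 : ℕ) +
        (z.2.2.1.sum : ℕ)))) * g z.2.1) - (z.2.1 : ℚ)) =
        ∑ z ∈ cov5 J y, g z.2.1 * ((u : ℚ) + w - H - 2 * ((z.2.1 : ℕ) + (z.1.sum : ℕ))) +
        ∑ z ∈ cov5 J y, g z.2.1 * ((u : ℚ) + w - H - 2 * ((z.2.1 : ℕ) + (z.2.2.1.sum : ℕ))) := by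
      rw [← sum_add_distrib, ← sum_add_distrib]
      apply sum_congr rfl
      rintro ⟨P, f, P2, q, Q⟩ hz
      rw [mem_cov5] at hz
      obtain ⟨h1, h2, h3⟩ := hz
      obtain ⟨hf, hq⟩ := part_of_cov5 hJ h1
      simp only
      have h4 := g_mul hf
      rw [hsq]
      generalize P.sum = p
      generalize P2.sum = p2
      linear_combination (2 : ℚ) * h4
    linarith
  -- B3
  have e5 := sum_cov5_block J y (fun _ => 1)
  have e6 := sum_cov5_block J y (fun q => 1 / ((q : ℚ) - 1))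
  have e7 := pair_nonneg J hJ y
  have e8 : ∑ z ∈ cov5 J y, c5 y z =
      ∑ z ∈ cov5 J y, (((1 + ((y : ℚ) - ((z.1.sum : ℕ) + (z.2.1 : ℕ) +
        (z.2.2.1.sum : ℕ)))) * g z.2.1) - (z.2.1 : ℚ)) +
      ∑ z ∈ cov5 J y, (z.2.1 : ℚ) * 1 -
      ∑ z ∈ cov5 J y, (z.2.1 : ℚ) * (1 / ((z.2.2.2.1 : ℚ) - 1)) := by
    rw [← sum_add_distrib, ← sum_sub_distrib]
    apply sum_congr rfl
    intro z _
    unfold c5
    ring
  rw [e5, e6] at e8
  -- the first part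
  have hcard : ((ar J).card : ℚ) * (((u : ℚ) + w - 1) + ((u : ℚ) + w - 1 - (H - 1)) / H) =
      ∑ x ∈ cov J y, (((H : ℚ) + y + 1) + ((y : ℚ) + 2) / H) := by
    rw [sum_const, nsmul_eq_mul, card_ar_eq_card_cov J y (by omega)]
    congr 1
    rw [hsq]
    ring
  have e9 : ∑ x ∈ cov J y, Kk H u w y x =
      ∑ x ∈ cov J y, (((H : ℚ) + y + 1) + ((y : ℚ) + 2) / H) +
      ∑ x ∈ cov J y, g x.2.1 * (((u - (x.2.1 + x.1.sum) : ℕ) : ℚ) +
        ((w - (x.2.1 + x.1.sum) : ℕ) : ℚ)) -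
      ∑ x ∈ cov J y, g x.2.1 * (H : ℚ) + ∑ x ∈ cov J y, ((y : ℚ) - (x.1.sum : ℕ)) -
      ∑ x ∈ cov J y, ((x.1.sum : ℕ) : ℚ) * 1 +
      ∑ x ∈ cov J y, ((x.1.sum : ℕ) : ℚ) * (1 / ((x.2.1 : ℚ) - 1)) := by
    rw [← sum_add_distrib, ← sum_sub_distrib, ← sum_add_distrib, ← sum_sub_distrib,
      ← sum_add_distrib]
    apply sum_congr rfl
    rintro ⟨P, q, Q⟩ hx
    rw [mem_cov] at hx
    have hq := part_of_cov hJ hx.1
    simp only [Kk]
    rw [g_eq hq, add_comm q P.sum]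
    ring
  rw [e9, hcard, e0]
  linarith

end Pool.Agent.W260.Theta
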