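import Pool.Agent.W260.Theta.I2c

/-!
Second inequality: the steps.
-/

set_option autoImplicit false

namespace Pool.Agent.W260.Theta

open Finset

lemma cov_facts {J : Multiset ℕ} (hJ : ∀ x ∈ J, 2 ≤ x) {y : ℕ} {P : List ℕ} {q : ℕ} {Q : List ℕ}
    (hx : (P, q, Q) ∈ cov J y) :
    (2 : ℚ) ≤ q ∧ (P.sum : ℚ) ≤ y ∧ (y : ℚ) + 1 ≤ (P.sum : ℚ) + q := by
  rw [mem_cov] at hx
  obtain ⟨h1, h2, h3⟩ := hx
  have hq := part_of_cov hJ h1
  simp only at h2 h3 hq
  refine ⟨by exact_mod_cast hq, by exact_mod_cast h2, by exact_mod_cast h3⟩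

lemma Kk_ge {J : Multiset ℕ} (hJ : ∀ x ∈ J, 2 ≤ x) {H u w y : ℕ} (hH : 2 ≤ H)
    (hs : u + w = H + y + 2) {x : List ℕ × ℕ × List ℕ} (hx : x ∈ cov J y) :
    2 * ((y : ℚ) - (x.1.sum : ℕ)) - 1 ≤ Kk H u w y x := by
  obtain ⟨P, q, Q⟩ := x
  obtain ⟨hq, h2, h3⟩ := cov_facts hJ hx
  have hq' : 2 ≤ q := by exact_mod_cast hq
  unfold Kk
  simp only
  rw [g_eq hq']
  have hsq : (u : ℚ) + w = H + y + 2 := by exact_mod_cast hs
  have hH' := cast_ge_two hH
  generalize hp : P.sum = p at *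
  have g1 : (u : ℚ) - ((p : ℚ) + q) ≤ ((u - (p + q) : ℕ) : ℚ) := by
    have : (u : ℤ) - ((p : ℤ) + q) ≤ ((u - (p + q) : ℕ) : ℤ) := by omega
    exact_mod_cast this
  have g2 : (w : ℚ) - ((p : ℚ) + q) ≤ ((w - (p + q) : ℕ) : ℚ) := by
    have : (w : ℤ) - ((p : ℤ) + q) ≤ ((w - (p + q) : ℕ) : ℤ) := by omega
    exact_mod_cast this
  have g3 : (0:ℚ) ≤ ((u - (p + q) : ℕ) : ℚ) := by positivity
  have g4 : (0:ℚ) ≤ ((w - (p + q) : ℕ) : ℚ) := by positivity
  generalize ((u - (p + q) : ℕ) : ℚ) = A at *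
  generalize ((w - (p + q) : ℕ) : ℚ) = B at *
  have hq1 : 0 < (q : ℚ) - 1 := by linarith
  have h5 : ((H : ℚ) - p) / ((q : ℚ) - 1) ≤ 2 + (A + B) / ((q : ℚ) - 1) := by
    have : 2 + (A + B) / ((q : ℚ) - 1) = (2 * ((q : ℚ) - 1) + (A + B)) / ((q : ℚ) - 1) := by
      field_simp
    rw [this]
    apply div_le_div_of_nonneg_right _ hq1.le
    linarith
  have h6 : 0 ≤ ((y : ℚ) + 2) / H := by positivity
  have h7 : (1 + 1 / ((q : ℚ) - 1)) * (A + B) = (A + B) + (A + B) / ((q : ℚ) - 1) := by ring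
  rw [h7]
  linarith

lemma Kk_nonneg {J : Multiset ℕ} (hJ : ∀ x ∈ J, 2 ≤ x) {H y : ℕ} (hH : 2 ≤ H)
    (hy : y + 2 ≤ H) {x : List ℕ × ℕ × List ℕ} (hx : x ∈ cov J y) :
    0 ≤ Kk H H (y + 2) y x := by
  obtain ⟨P, q, Q⟩ := x
  obtain ⟨hq, h2, h3⟩ := cov_facts hJ hx
  rw [mem_cov] at hx
  obtain ⟨_, hx2, hx3⟩ := hx
  simp only at hx2 hx3
  have hq' : 2 ≤ q := by exact_mod_cast hq
  unfold Kk
  simp only
  rw [g_eq hq']
  have hH' := cast_ge_two hH
  generalize hp : P.sum = p at *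
  have g4 : (0:ℚ) ≤ ((y + 2 - (p + q) : ℕ) : ℚ) := by positivity
  generalize ((y + 2 - (p + q) : ℕ) : ℚ) = B at *
  have hq1 : 0 < (q : ℚ) - 1 := by linarith
  have hH0 : (0:ℚ) < H := by linarith
  have h6 : 0 ≤ ((y : ℚ) + 2) / H := by positivity
  have h7 : 0 ≤ (1 + 1 / ((q : ℚ) - 1)) * B := by positivity
  have hyp : (0:ℚ) ≤ (y : ℚ) - p := by linarith
  rcases Nat.lt_or_ge H (p + q) with he | he
  · -- the covering block ends after H
    have h8 : ((H : ℚ) - p) / ((q : ℚ) - 1) ≤ 1 := by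
      rw [div_le_one hq1]
      have : (H : ℚ) + 1 ≤ (p : ℚ) + q := by exact_mod_cast he
      linarith
    have h9 : ((H - (p + q) : ℕ) : ℚ) = 0 := by
      rw [Nat.sub_eq_zero_of_le he.le]; simp
    rw [h9]
    have : (1 + 1 / ((q : ℚ) - 1)) * (0 + B) = (1 + 1 / ((q : ℚ) - 1)) * B := by ring
    rw [this]
    linarith
  · have h9 : ((H - (p + q) : ℕ) : ℚ) = (H : ℚ) - (p + q) := by
      rw [Nat.cast_sub he]; push_cast; ring
    rw [h9]
    have e1 : 1 + 2 * ((y : ℚ) - p) + ((y : ℚ) + 2) / H +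
        (1 + 1 / ((q : ℚ) - 1)) * ((H : ℚ) - (p + q) + B) - ((H : ℚ) - p) / ((q : ℚ) - 1) =
        2 * ((y : ℚ) - p) + ((y : ℚ) + 2) / H + ((H : ℚ) - (p + q)) - 1 / ((q : ℚ) - 1) +
        (1 + 1 / ((q : ℚ) - 1)) * B := by
      field_simp
      ring
    rw [e1]
    have h10 : 1 / ((q : ℚ) - 1) ≤ 1 := by
      rw [div_le_one hq1]; linarith
    rcases Nat.lt_or_ge (p + q) H with he2 | he2
    · have : (p : ℚ) + q + 1 ≤ H := by exact_mod_cast he2
      linarith
    · have he3 : H = p + q := le_antisymm he2 he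
      have he4 : (H : ℚ) = p + q := by exact_mod_cast he3
      rcases Nat.lt_or_ge p y with hpy | hpy
      · have : (p : ℚ) + 1 ≤ y := by exact_mod_cast hpy
        linarith
      · have hpy' : p = y := le_antisymm hx2 hpy
        have hpy2 : (p : ℚ) = y := by exact_mod_cast hpy'
        have hqe : (q : ℚ) = H - y := by rw [he4, hpy2]; ring
        have hyH : (y : ℚ) + 2 ≤ H := by exact_mod_cast hy
        have h11 : 1 / ((q : ℚ) - 1) ≤ ((y : ℚ) + 2) / H := by
          rw [div_le_div_iff₀ hq1 hH0, hqe]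
          have hy0 : (0:ℚ) ≤ y := by positivity
          nlinarith [mul_nonneg (by linarith : (0:ℚ) ≤ y + 1) (by linarith : (0:ℚ) ≤ H - y - 2)]
        linarith

/-- one step, `b + c = k + 2` -/
lemma one_step (J : Multiset ℕ) (hJ : ∀ x ∈ J, 2 ≤ x) (H v y : ℕ) (hH : 2 ≤ H)
    (hv : v ≤ H) (hy : y + 2 ≤ H) (h : J.sum = y + v + 1) :
    ((H ::ₘ J).count H : ℚ) * WW (H ::ₘ J) H v (y + 2) ≤
      (((H + 1) ::ₘ J).count (H + 1) : ℚ) * WW ((H + 1) ::ₘ J) H (v + 1) (y + 2) := by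
  have h1 := WW_step J H H v (y + 2) hH le_rfl hv hy
  have h2 := step_lower J hJ H H v (y + 2) y hH h (by ring)
  have h3 : 0 ≤ ∑ x ∈ cov J y, Kk H H (y + 2) y x :=
    sum_nonneg (fun x hx => Kk_nonneg hJ hH hy hx)
  linarith

/-- two steps -/
lemma two_step (J : Multiset ℕ) (hJ : ∀ x ∈ J, 2 ≤ x) (H u v w y : ℕ) (hH : 2 ≤ H)
    (hu : u ≤ H) (hv : v ≤ H) (hw : w ≤ H) (h : J.sum = y + 1 + v + 1)
    (hs : u + w = H + y + 3) :
    ((H ::ₘ J).count H : ℚ) * WW (H ::ₘ J) u v w ≤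
      (((H + 2) ::ₘ J).count (H + 2) : ℚ) * WW ((H + 2) ::ₘ J) u (v + 2) w := by
  have h1 := WW_step J H u v w hH hu hv hw
  have h2 := step_lower J hJ H u v w (y + 1) hH (by omega) (by omega)
  have h1' := WW_step J (H + 1) u (v + 1) w (by omega) (by omega) (by omega) (by omega)
  have h2' := step_lower J hJ (H + 1) u (v + 1) w y (by omega) (by omega) (by omega)
  have h3 : ∑ x ∈ cov J (y + 1), (2 * (((y + 1 : ℕ) : ℚ) - (x.1.sum : ℕ)) - 1) ≤
      ∑ x ∈ cov J (y + 1), Kk H u w (y + 1) x :=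
    sum_le_sum (fun x hx => Kk_ge hJ hH (by omega) hx)
  have h3' : ∑ x ∈ cov J y, (2 * ((y : ℚ) - (x.1.sum : ℕ)) - 1) ≤
      ∑ x ∈ cov J y, Kk (H + 1) u w y x :=
    sum_le_sum (fun x hx => Kk_ge hJ (by omega) (by omega) hx)
  have h4 := sum_cov_al J (y + 1) (by omega) (fun t => 2 * t - 1)
  have h4' := sum_cov_al J y (by omega) (fun t => 2 * t - 1)
  have h5 : 0 ≤ ∑ L ∈ ar J, ((2 * al L (y + 1) - 1) + (2 * al L y - 1)) := by
    apply sum_nonneg
    intro L hL
    rw [mem_ar] at hL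
    have := al_add_al hJ y (by omega) hL
    linarith
  rw [sum_add_distrib, ← h4, ← h4'] at h5
  have e1 : H + 1 + 1 = H + 2 := rfl
  have e2 : v + 1 + 1 = v + 2 := rfl
  rw [e1, e2] at h1'
  linarith

/-- a step in a long direction -/
lemma big_step (J : Multiset ℕ) (hJ : ∀ x ∈ J, 2 ≤ x) (H u v w : ℕ) (hH : 2 ≤ H)
    (hu : u ≤ H) (hv : v ≤ H) (hw : w ≤ H) (h : J.sum ≤ v) (hs : 2 ≤ u + w) :
    ((H ::ₘ J).count H : ℚ) * WW (H ::ₘ J) u v w ≤
      (((H + 1) ::ₘ J).count (H + 1) : ℚ) * WW ((H + 1) ::ₘ J) u (v + 1) w := by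
  have h1 := WW_step J H u v w hH hu hv hw
  have h2 : 0 ≤ ((ar J).card : ℚ) * (((u : ℚ) + w - 1) + ((u : ℚ) + w - 1 - (H - 1)) / H) := by
    apply mul_nonneg (by positivity)
    have hH' := cast_ge_two hH
    have hs' : (2 : ℚ) ≤ u + w := by exact_mod_cast hs
    have e : ((u : ℚ) + w - 1) + ((u : ℚ) + w - 1 - (H - 1)) / H =
        (((u : ℚ) + w - 2) * (H + 1) + 2) / H := by
      field_simp
      ring
    rw [e]
    apply div_nonneg _ (by linarith)
    have : 0 ≤ ((u : ℚ) + w - 2) * (H + 1) := mul_nonneg (by linarith) (by linarith)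
    linarith
  have h3 : 0 ≤ ∑ x ∈ ar3 J, g x.2.1 * dl H u v w x := by
    apply sum_nonneg
    rintro ⟨P, f, Q⟩ hx
    rw [mem_ar3] at hx
    have hf := part_of_cov hJ hx
    have h4 := sum_of_ar3 hx
    simp only at h4 hf
    apply mul_nonneg (g_nonneg hf)
    unfold dl
    simp only
    rw [if_neg (by omega)]
    rw [sub_zero]
    positivity
  linarith

/-- `c = 0` with a large block -/
lemma zero_case (J : Multiset ℕ) (hJ : ∀ x ∈ J, 2 ≤ x) (H a b : ℕ) (hH : 2 ≤ H)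
    (ha : a ≤ H) (hb : b ≤ H) (hs : a + b = H + J.sum + 1) :
    0 ≤ ((H ::ₘ J).count H : ℚ) * WW (H ::ₘ J) a b 0 := by
  rw [WW_insert]
  -- common estimate
  have key : ∀ s : ℕ, s ≤ J.sum → (J.sum : ℤ) * (J.sum + 1) - 2 * s * (s - 1) +
      2 * (H - J.sum - 1) * (J.sum - s) + 2 * (H - J.sum - 1) ≤
      2 * (phi H (a - s) + phi H (b - s) - phi H H) := by
    intro s hsk
    have e1 := two_phi_of_le (h := H) (r := a - s) (by omega)
    have e2 := two_phi_of_le (h := H) (r := b - s) (by omega)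
    have e3 := two_phi_self H
    have e4 : ((a - s : ℕ) : ℤ) = a - s := by omega
    have e5 : ((b - s : ℕ) : ℤ) = b - s := by omega
    rw [e4] at e1
    rw [e5] at e2
    generalize J.sum = k at *
    have hk : (k : ℤ) = a + b - H - 1 := by omega
    have hd : (0:ℤ) ≤ (H : ℤ) - a := by omega
    have he : (0:ℤ) ≤ (H : ℤ) - b := by omega
    have hde := mul_nonneg hd he
    have e6 : 2 * (phi H (a - s) + phi H (b - s) - phi H H) =
        2 * phi H (a - s) + 2 * phi H (b - s) - 2 * phi H H := by ring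
    rw [e6, e1, e2, e3, hk]
    nlinarith
  have h1 : 0 ≤ ∑ L ∈ ar J, g H * (cc (H :: L) a b 0 : ℚ) := by
    apply sum_nonneg
    intro L hL
    rw [mem_ar] at hL
    apply mul_nonneg (g_nonneg hH)
    rw [cc_first hL ha hb (by omega)]
    have h2 := key 0 (by omega)
    have h3 := two_SS_le J
    have h4 : 0 ≤ q0 J H a b 0 := by
      unfold q0
      rw [phi_zero]
      simp only [Nat.sub_zero] at h2
      have hm : (0:ℤ) ≤ (H : ℤ) - J.sum - 1 := by omega
      have hk : (0:ℤ) ≤ (J.sum : ℕ) := Int.natCast_nonneg _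
      generalize J.sum = k at *
      push_cast at h2
      nlinarith [mul_nonneg hm hk]
    exact_mod_cast h4
  have h2 : 0 ≤ ∑ x ∈ ar3 J, g x.2.1 * (cc (x.2.1 :: x.1 ++ H :: x.2.2) a b 0 : ℚ) := by
    have hsw := sum_ar3_swap J (fun x => g x.2.1 * (cc (x.2.1 :: x.1 ++ H :: x.2.2) a b 0 : ℚ))
    simp only at hsw
    have h3 : 0 ≤ ∑ x ∈ ar3 J, (g x.2.1 * (cc (x.2.1 :: x.1 ++ H :: x.2.2) a b 0 : ℚ) +
        g x.2.1 * (cc (x.2.1 :: x.2.2 ++ H :: x.1) a b 0 : ℚ)) := by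
      apply sum_nonneg
      rintro ⟨P, f, Q⟩ hx
      rw [mem_ar3] at hx
      have hf := part_of_cov hJ hx
      have h4 := sum_of_ar3 hx
      simp only at h4 hf hx ⊢
      have hx' : (Q : Multiset ℕ) + {f} + (P : Multiset ℕ) = J := by rw [← hx]; abel
      rw [← mul_add]
      apply mul_nonneg (g_nonneg hf)
      rw [cc_other hx ha hb (by omega), cc_other hx' ha hb (by omega)]
      have hSS : SS J = SS (P : Multiset ℕ) + phi f f + SS (Q : Multiset ℕ) := by
        rw [← hx, SS_add, SS_add]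
        simp [SS]
      have hP : SS ((f :: P : List ℕ) : Multiset ℕ) = phi f f + SS (P : Multiset ℕ) := by
        rw [← Multiset.cons_coe, SS_cons]
      have hQ : SS ((f :: Q : List ℕ) : Multiset ℕ) = phi f f + SS (Q : Multiset ℕ) := by
        rw [← Multiset.cons_coe, SS_cons]
      rw [Phi_total (f :: P) (by simp; omega : (f :: P).sum ≤ a),
        Phi_total (f :: P) (by simp; omega : (f :: P).sum ≤ b),
        Phi_total (f :: Q) (by simp; omega : (f :: Q).sum ≤ a),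
        Phi_total (f :: Q) (by simp; omega : (f :: Q).sum ≤ b), hP, hQ, hSS]
      have k1 := key (f + P.sum) (by omega)
      have k2 := key (f + Q.sum) (by omega)
      have k3 := two_phi_self f
      simp only [Phi_zero, Nat.zero_sub, phi_zero]
      have hk : (J.sum : ℤ) = P.sum + f + Q.sum := by omega
      have hm : (0:ℤ) ≤ (H : ℤ) - J.sum - 1 := by omega
      have hp : (0:ℤ) ≤ (P.sum : ℕ) := Int.natCast_nonneg _
      have hq : (0:ℤ) ≤ (Q.sum : ℕ) := Int.natCast_nonneg _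
      have goal : 0 ≤ (phi f f + SS (P : Multiset ℕ) + phi H (a - (f + P.sum)) +
          (phi f f + SS (P : Multiset ℕ) + phi H (b - (f + P.sum))) + (0 + 0) - phi H H -
          (SS (P : Multiset ℕ) + phi f f + SS (Q : Multiset ℕ)) - ((f : ℤ) - 1)) +
          (phi f f + SS (Q : Multiset ℕ) + phi H (a - (f + Q.sum)) +
          (phi f f + SS (Q : Multiset ℕ) + phi H (b - (f + Q.sum))) + (0 + 0) - phi H H -
          (SS (P : Multiset ℕ) + phi f f + SS (Q : Multiset ℕ)) - ((f : ℤ) - 1)) := by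
        rw [hk] at k1 k2 hm
        generalize P.sum = p at *
        generalize Q.sum = r at *
        push_cast at k1 k2
        have m1 := mul_nonneg hm hp
        have m2 := mul_nonneg hm hq
        have m3 := mul_nonneg hp hq
        nlinarith
      exact_mod_cast goal
    rw [sum_add_distrib, ← hsw] at h3
    linarith
  linarith

/-- one block -/
lemma single_case (n a b c : ℕ) (hn : 2 ≤ n) (hs : a + b + c = n + 1) (ha : a ≤ n) (hb : b ≤ n)
    (hc : c ≤ n) (h1 : 1 ≤ a + b) (h2 : 1 ≤ a + c) (h3 : 1 ≤ b + c) : 0 ≤ WW {n} a b c := by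
  unfold WW
  apply sum_nonneg
  intro L hL
  rw [mem_ar] at hL
  have hL' : L = [n] := by
    rw [← Multiset.coe_singleton, Multiset.coe_eq_coe] at hL
    exact List.perm_singleton.1 hL
  subst hL'
  simp only [List.headD_cons]
  apply mul_nonneg (g_nonneg hn)
  rw [cc_first (J := 0) (L := []) rfl ha hb hc]
  have : 0 ≤ q0 0 n a b c := by
    unfold q0
    rw [SS_zero]
    have e1 := two_phi_of_le ha
    have e2 := two_phi_of_le hb
    have e3 := two_phi_of_le hc
    have e4 := two_phi_self n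
    have hn' : (n : ℤ) = a + b + c - 1 := by omega
    have ha0 : (0:ℤ) ≤ a := by positivity
    have hb0 : (0:ℤ) ≤ b := by positivity
    have hc0 : (0:ℤ) ≤ c := by positivity
    -- a b + b c + c a ≥ a + b + c - 1
    have key : (a : ℤ) + b + c - 1 ≤ a * b + b * c + c * a := by
      rcases Nat.eq_zero_or_pos a with h | h
      · subst h
        have hb1 : (1:ℤ) ≤ b := by omega
        have hc1 : (1:ℤ) ≤ c := by omega
        push_cast
        nlinarith
      · rcases Nat.eq_zero_or_pos b with h' | h'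
        · subst h'
          have ha1 : (1:ℤ) ≤ a := by omega
          have hc1 : (1:ℤ) ≤ c := by omega
          push_cast
          nlinarith
        · have ha1 : (1:ℤ) ≤ a := by omega
          have hb1 : (1:ℤ) ≤ b := by omega
          nlinarith [mul_nonneg (by linarith : (0:ℤ) ≤ a - 1) (by linarith : (0:ℤ) ≤ b - 1),
            mul_nonneg (by linarith : (0:ℤ) ≤ a + b - 1) hc0]
    rw [hn'] at e1 e2 e3 e4 ⊢
    nlinarith
  exact_mod_cast this

end Pool.Agent.W260.Theta
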